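import Pool.Agent.Work.MP_609cce_lc_eth.EDefs

/-!
# Equations and locality of the oracles
-/

namespace OEth

open ORDist

variable {Mach : ℕ → OProc}

theorem st_congr {R R' : Str → Bool} {T : List Str} (hR : ∀ x ∈ T, R x = R' x) :
    st R T = st R' T := by
  refine decide_eq_decide.2 ⟨?_, ?_⟩
  · rintro ⟨x, hx, h⟩
    exact ⟨x, hx, hR x hx ▸ h⟩
  · rintro ⟨x, hx, h⟩
    exact ⟨x, hx, (hR x hx).symm ▸ h⟩

theorem yesN_cons {p : Par} {c : Bool} {γ : Str} : yesN p (c :: γ) ↔ xor c (p.pad γ) = true := by
  constructor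
  · rintro ⟨c', γ', h, h'⟩
    simp only [List.cons.injEq] at h
    obtain ⟨rfl, rfl⟩ := h
    exact h'
  · intro h
    exact ⟨c, γ, rfl, h⟩

theorem yesN_congr {p p' : Par} {y : Str} {n : ℕ} (h : Agr p p' n) (hy : y.length ≤ n) :
    yesN p y ↔ yesN p' y := by
  unfold yesN
  refine exists_congr fun c => exists_congr fun γ => and_congr_right fun e => ?_
  rw [h.pad γ (by rw [e] at hy; simp only [List.length_cons] at hy; omega)]

theorem nm_congr {p p' : Par} (hp : p.WF) {R R' : Str → Bool} {T : List Str} {n : ℕ}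
    (h : Agr p p' n) (hT : maxlen T + 1 < n) (hR : ∀ x ∈ T, R x = R' x) :
    nm p R T = nm p' R' T := by
  unfold nm
  rw [← h.g T (by omega), h.pad (p.g T) (by rw [hp.g_len]; omega), st_congr hR]

theorem stepA_congr {p p' : Par} {A A' R R' : Str → Bool} {q : Str} {n : ℕ} (hp : p.WF)
    (h : Agr p p' n) (hq : q.length ≤ n) (hA : ∀ q' : Str, q'.length < q.length → A q' = A' q')
    (hR : ∀ x : Str, x.length < q.length → R x = R' x) :
    stepA Mach p A R q = stepA Mach p' A' R' q := by
  unfold stepA
  refine decide_eq_decide.2 (or_congr ?_ (or_congr ?_ (or_congr ?_ ?_)))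
  · refine exists_congr fun x => exists_congr fun w => and_congr_right fun hw => ?_
    have h2 : q.length = 2 * x.length + w.length + 3 := by
      rw [hw]; simp only [bQ, List.length_cons, pairStr_length']
    rw [h.base x (by omega)]
  · refine exists_congr fun j => exists_congr fun T => and_congr_right fun hT => ?_
    have h1 := maxlen_le_seqBits T
    have h2 : q.length = j + (seqBits T).length + 3 := by
      rw [hT]; simp only [hashQ, List.length_cons, un_length]
    rw [nm_congr hp h (by omega) fun x hx => hR x (by have := le_maxlen hx; omega)]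
  · refine exists_congr fun y => exists_congr fun w => and_congr_right fun hw => ?_
    have h2 : q.length = 2 * y.length + w.length + 3 := by
      rw [hw]; simp only [wQ, List.length_cons, pairStr_length']
    rw [yesN_congr h (by omega : y.length ≤ n), h.om y (by omega)]
  · refine exists_congr fun r => exists_congr fun w => and_congr_right fun hw => ?_
    have h2 : q.length = 2 * r.length + w.length + 3 := by
      rw [hw]; simp only [kQ, List.length_cons, pairStr_length']
    exact yesK_congr fun q' hq' => hA q' (by omega)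

theorem stepR_congr {p p' : Par} {A A' : Str → Bool} {q : Str} {n : ℕ}
    (h : Agr p p' n) (hq : q.length ≤ n) (hA : ∀ q' : Str, q'.length < q.length → A q' = A' q') :
    stepR Mach p A q = stepR Mach p' A' q := by
  unfold stepR
  refine decide_eq_decide.2 (or_congr ?_ ?_)
  · refine exists_congr fun y => and_congr_right fun hw => ?_
    have h2 : q.length = y.length + 1 := by rw [hw, List.length_cons]
    exact yesN_congr h (by omega)
  · refine exists_congr fun r => exists_congr fun w => and_congr_right fun hw =>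
      and_congr_right fun _ => ?_
    have h2 : q.length = r.length + 1 := by rw [hw, List.length_cons]
    exact yesK_congr fun q' hq' => hA q' (by omega)

theorem orc_eq {p : Par} (hp : p.WF) (q : Str) :
    orc Mach p q = stepA Mach p (orc Mach p) (lang Mach p) q := by
  unfold orc
  rw [Zf, cond_false]
  refine stepA_congr hp (Agr.refl p q.length) le_rfl ?_ ?_
  · intro q' hq'
    show (if _h : q'.length < q.length then _ else _) = _
    rw [dif_pos hq']
  · intro q' hq'
    show (if _h : q'.length < q.length then _ else _) = _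
    rw [dif_pos hq']
    rfl

theorem lang_eq {p : Par} (x : Str) :
    lang Mach p x = stepR Mach p (orc Mach p) x := by
  unfold lang
  rw [Zf, cond_true]
  refine stepR_congr (Agr.refl p x.length) le_rfl ?_
  intro q' hq'
  show (if _h : q'.length < x.length then _ else _) = _
  rw [dif_pos hq']
  rfl

/-- locality -/
theorem local_aux {p p' : Par} (hp : p.WF) (hp' : p'.WF) {n : ℕ} (h : Agr p p' n) :
    ∀ k ≤ n, ∀ q : Str, q.length = k →
      orc Mach p q = orc Mach p' q ∧ lang Mach p q = lang Mach p' q := by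
  intro k
  induction k using Nat.strong_induction_on with
  | _ k ih =>
    intro hk q hq
    have hA : ∀ q' : Str, q'.length < q.length → orc Mach p q' = orc Mach p' q' :=
      fun q' hq' => (ih _ (by omega) (by omega) q' rfl).1
    have hR : ∀ q' : Str, q'.length < q.length → lang Mach p q' = lang Mach p' q' :=
      fun q' hq' => (ih _ (by omega) (by omega) q' rfl).2
    rw [orc_eq hp, orc_eq hp', lang_eq, lang_eq]
    exact ⟨stepA_congr hp h (by omega) hA hR, stepR_congr h (by omega) hA⟩

theorem orc_local {p p' : Par} (hp : p.WF) (hp' : p'.WF) {n : ℕ} (h : Agr p p' n) {q : Str}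
    (hq : q.length ≤ n) : orc Mach p q = orc Mach p' q :=
  (local_aux hp hp' h q.length hq q rfl).1

theorem lang_local {p p' : Par} (hp : p.WF) (hp' : p'.WF) {n : ℕ} (h : Agr p p' n) {q : Str}
    (hq : q.length ≤ n) : lang Mach p q = lang Mach p' q :=
  (local_aux hp hp' h q.length hq q rfl).2

/-! ### the values of the four types of queries -/

theorem orc_bQ {p : Par} (hp : p.WF) (x w : Str) :
    orc Mach p (bQ x w) = true ↔ w = p.base x := by
  rw [orc_eq hp, stepA, cdec]
  constructor
  · rintro (⟨x', w', h1, h2⟩ | ⟨j, T, h1, h2⟩ | ⟨y, w', h1, h2⟩ | ⟨r, w', h1, h2⟩)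
    · simp only [bQ, List.cons.injEq, true_and] at h1
      obtain ⟨h3, h4⟩ := pairStr_inj' h1
      rw [h3, h4]; exact h2
    · simp [bQ, hashQ] at h1
    · simp [bQ, wQ] at h1
    · simp [bQ, kQ] at h1
  · intro h
    exact Or.inl ⟨x, w, rfl, h⟩

theorem orc_hash {p : Par} (hp : p.WF) (j : ℕ) (T : List Str) :
    orc Mach p (hashQ j T) = (pairStr (nm p (lang Mach p) T, [])).getD j false := by
  rw [orc_eq hp, Bool.eq_iff_iff, stepA, cdec]
  constructor
  · rintro (⟨x', w', h1, h2⟩ | ⟨j', T', h1, h2⟩ | ⟨y, w', h1, h2⟩ | ⟨r, w', h1, h2⟩)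
    · simp [bQ, hashQ] at h1
    · simp only [hashQ, List.cons.injEq, true_and] at h1
      obtain ⟨h3, h4⟩ := un_inj h1
      have h5 := seqBits_inj h4
      subst h3 h5
      exact h2
    · simp [hashQ, wQ] at h1
    · simp [hashQ, kQ] at h1
  · intro h
    exact Or.inr (Or.inl ⟨j, T, rfl, h⟩)

theorem orc_wQ {p : Par} (hp : p.WF) (y w : Str) :
    orc Mach p (wQ y w) = true ↔ yesN p y ∧ w = p.om y := by
  rw [orc_eq hp, stepA, cdec]
  constructor
  · rintro (⟨x', w', h1, h2⟩ | ⟨j', T', h1, h2⟩ | ⟨y', w', h1, h2⟩ | ⟨r, w', h1, h2⟩)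
    · simp [bQ, wQ] at h1
    · simp [hashQ, wQ] at h1
    · simp only [wQ, List.cons.injEq, true_and] at h1
      obtain ⟨h3, h4⟩ := pairStr_inj' h1
      subst h3 h4
      exact h2
    · simp [wQ, kQ] at h1
  · intro h
    exact Or.inr (Or.inr (Or.inl ⟨y, w, rfl, h⟩))

theorem orc_kQ {p : Par} (hp : p.WF) (r w : Str) :
    orc Mach p (kQ r w) = true ↔ yesK Mach (orc Mach p) r w := by
  rw [orc_eq hp, stepA, cdec]
  constructor
  · rintro (⟨x', w', h1, h2⟩ | ⟨j', T', h1, h2⟩ | ⟨y', w', h1, h2⟩ | ⟨r', w', h1, h2⟩)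
    · simp [bQ, kQ] at h1
    · simp [hashQ, kQ] at h1
    · simp [wQ, kQ] at h1
    · simp only [kQ, List.cons.injEq, true_and] at h1
      obtain ⟨h3, h4⟩ := pairStr_inj' h1
      subst h3 h4
      exact h2
  · intro h
    exact Or.inr (Or.inr (Or.inr ⟨r, w, rfl, h⟩))

/-- the other queries are answered by no -/
theorem orc_other {p : Par} (hp : p.WF) {q : Str} (h1 : ∀ x w, q ≠ bQ x w)
    (h2 : ∀ j T, q ≠ hashQ j T) (h3 : ∀ y w, q ≠ wQ y w) (h4 : ∀ r w, q ≠ kQ r w) :
    orc Mach p q = false := by
  rw [Bool.eq_false_iff, Ne, orc_eq hp, stepA, cdec]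
  rintro (⟨x', w', h, _⟩ | ⟨j', T', h, _⟩ | ⟨y', w', h, _⟩ | ⟨r', w', h, _⟩)
  · exact h1 _ _ h
  · exact h2 _ _ h
  · exact h3 _ _ h
  · exact h4 _ _ h

theorem lang_true {p : Par} (y : Str) :
    lang Mach p (true :: y) = true ↔ yesN p y := by
  rw [lang_eq, stepR, cdec]
  constructor
  · rintro (⟨y', h1, h2⟩ | ⟨r', w', h1, h2, h3⟩)
    · simp only [List.cons.injEq, true_and] at h1
      subst h1
      exact h2
    · simp at h1
  · intro h
    exact Or.inl ⟨y, rfl, h⟩

theorem lang_false {p : Par} (hp : p.WF) (r : Str) :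
    lang Mach p (false :: r) = true ↔ ∃ w : Str, w.length ≤ r.length ∧
      orc Mach p (kQ r w) = true := by
  rw [lang_eq, stepR, cdec]
  constructor
  · rintro (⟨y', h1, h2⟩ | ⟨r', w', h1, h2, h3⟩)
    · simp at h1
    · simp only [List.cons.injEq, true_and] at h1
      subst h1
      exact ⟨w', h2, (orc_kQ hp _ _).2 h3⟩
  · rintro ⟨w, h1, h2⟩
    exact Or.inr ⟨r, w, rfl, h1, (orc_kQ hp _ _).1 h2⟩

theorem lang_nil {p : Par} : lang Mach p [] = false := by
  rw [Bool.eq_false_iff, Ne, lang_eq, stepR, cdec]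
  rintro (⟨y', h1, h2⟩ | ⟨r', w', h1, h2, h3⟩)
  · simp at h1
  · simp at h1

/-! ### the distillation -/

/-- the distillation -/
noncomputable def dist (Mach : ℕ → OProc) (p : Par) (T : List Str) : Str :=
  true :: nm p (lang Mach p) T

theorem dist_length {p : Par} (hp : p.WF) (T : List Str) :
    (dist Mach p T).length = maxlen T + 3 := by
  unfold dist nm
  rw [List.length_cons, List.length_cons, hp.g_len]

theorem dist_correct {p : Par} (T : List Str) :
    lang Mach p (dist Mach p T) = true ↔ ∃ x ∈ T, lang Mach p x = true := by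
  unfold dist nm
  rw [lang_true, yesN_cons]
  have h : xor (xor (st (lang Mach p) T) (p.pad (p.g T))) (p.pad (p.g T)) =
      st (lang Mach p) T := by
    cases st (lang Mach p) T <;> cases p.pad (p.g T) <;> rfl
  rw [h, st, cdec]

end OEth
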