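import Pool.Agent.Work.MP_609cce_lc_eth.EWorld

/-!
# The game of a stage
-/

namespace OEth

open ORDist Orc Finset
open Classical

section

variable {n N : ℕ}

/-- the queries which matter -/
def Sh (N : ℕ) (q : Str) : Prop := q.length < N ∧ ¬ KType q

/-- the classes of the queries -/
noncomputable def clsW (n N : ℕ) (q : Str) : Cls (IX n) (IY n N) (IT n N) :=
  if Sh N q then
    if h : ∃ z : IX n × Bool × Str, q = bQ z.1.1 (z.2.1 :: z.2.2) then
      .plain h.choose.1 h.choose.2.1 h.choose.2.2
    else if h : ∃ z : IY n N × Str, q = wQ z.1.1 z.2 then .wit h.choose.1 h.choose.2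
    else if h : ∃ z : IT n N × ℕ, q = hashQ z.2 z.1.1 then
      .hash h.choose.1 fun γ b => (pairStr (b :: γ, [])).getD h.choose.2 false
    else .fix
  else .fix

/-- the oracle on the queries which matter -/
noncomputable def BW (Mach : ℕ → OProc) (p : Par) (η : WC n N → Str) (π : IP n N → Bool)
    (q : Str) : Bool :=
  if Sh N q then orc Mach (par p η π) q else false

/-- the game -/
noncomputable def gameW (Mach : ℕ → OProc) (p : Par) (n N : ℕ) :
    Game (IX n) (IY n N) (IT n N) (IP n N) Str :=
  ⟨visW Mach p, BW Mach p, clsW n N⟩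

theorem clsW_plain {q : Str} {x : IX n} {c : Bool} {u : Str} (h : clsW n N q = .plain x c u) :
    Sh N q ∧ q = bQ x.1 (c :: u) := by
  unfold clsW at h
  split_ifs at h with h1 h2 h3 h4
  simp only [Cls.plain.injEq] at h
  obtain ⟨rfl, rfl, rfl⟩ := h
  exact ⟨h1, h2.choose_spec⟩

theorem clsW_wit {q : Str} {y : IY n N} {w : Str} (h : clsW n N q = .wit y w) :
    Sh N q ∧ q = wQ y.1 w := by
  unfold clsW at h
  split_ifs at h with h1 h2 h3 h4
  simp only [Cls.wit.injEq] at h
  obtain ⟨rfl, rfl⟩ := h
  exact ⟨h1, h3.choose_spec⟩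

theorem clsW_hash {q : Str} {t : IT n N} {f : Str → Bool → Bool} (h : clsW n N q = .hash t f) :
    Sh N q ∧ ∃ j, q = hashQ j t.1 ∧ f = fun γ b => (pairStr (b :: γ, [])).getD j false := by
  unfold clsW at h
  split_ifs at h with h1 h2 h3 h4
  simp only [Cls.hash.injEq] at h
  obtain ⟨rfl, rfl⟩ := h
  exact ⟨h1, _, h4.choose_spec, rfl⟩

theorem clsW_fix {q : Str} (h : clsW n N q = .fix) (hs : Sh N q) :
    (∀ (x : IX n) (c : Bool) (u : Str), q ≠ bQ x.1 (c :: u)) ∧
    (∀ (y : IY n N) (w : Str), q ≠ wQ y.1 w) ∧ ∀ (t : IT n N) (j : ℕ), q ≠ hashQ j t.1 := by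
  unfold clsW at h
  rw [if_pos hs] at h
  split_ifs at h with h2 h3 h4
  exact ⟨fun x c u e => h2 ⟨(x, c, u), e⟩, fun y w e => h3 ⟨(y, w), e⟩,
    fun t j e => h4 ⟨(t, j), e⟩⟩

variable {p : Par}

theorem card_filter_inst {α : Type} (P : α → Prop) (f1 f2 : Fintype α)
    (i1 i2 : DecidablePred P) :
    (@Finset.filter α P i1 (@univ α f1)).card ≤ (@Finset.filter α P i2 (@univ α f2)).card := by
  rw [Subsingleton.elim i1 i2, Subsingleton.elim f1 f2]

theorem gameW_ok (Mach : ℕ → OProc) (hp : p.WF) (hn : 1 ≤ n) :
    (gameW Mach p n N).OK E0 (2 ^ n) where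
  eb := fun _ => rfl
  eu := fun x => by
    show 2 ^ n ≤ (sF n).card
    rw [card_sF]
  eo := fun y => by
    show 2 ^ n ≤ (sF y.1.length).card
    rw [card_sF]
    exact Nat.pow_le_pow_right (by norm_num) y.2.1
  eg := fun t => by
    show 2 ^ n ≤ (sF (maxlen t.1 + 1)).card
    rw [card_sF]
    exact Nat.pow_le_pow_right (by norm_num) (by have := t.2.1; omega)
  fix := by
    intro q hq
    by_cases hs : Sh N q
    · refine ⟨orc Mach p q, fun η hη π => ?_⟩
      show (if Sh N q then orc Mach (par p η π) q else false) = _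
      rw [if_pos hs]
      obtain ⟨h1, h2, h3⟩ := clsW_fix hq hs
      have hw := par_wf (π := π) hp hη
      by_cases hb : ∃ x w, q = bQ x w
      · obtain ⟨x, w, rfl⟩ := hb
        rw [Bool.eq_iff_iff, orc_bQ hw, orc_bQ hp]
        by_cases hx : x.length = n
        · cases w with
          | nil =>
            have e1 := hw.base_len x
            have e2 := hp.base_len x
            constructor
            · intro h
              rw [← h] at e1
              simp at e1
            · intro h
              rw [← h] at e2
              simp at e2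
          | cons c u => exact absurd rfl (h1 ⟨x, hx⟩ c u)
        · have : (par p η π).base x = p.base x := by
            show (if h : x.length = n then _ else _) = _
            rw [dif_neg hx]
          rw [this]
      by_cases hh : ∃ j T, q = hashQ j T
      · obtain ⟨j, T, rfl⟩ := hh
        rw [orc_hash hw, orc_hash hp]
        have hlen : (hashQ j T).length = j + (seqBits T).length + 3 := by
          simp only [hashQ, List.length_cons, un_length]
        have hT : maxlen T < n := by
          by_contra hcon
          exact h3 ⟨T, not_lt.1 hcon, by have := hs.1; omega⟩ j rfl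
        have e1 : (par p η π).g T = p.g T := by
          show (if h : n ≤ maxlen T ∧ (seqBits T).length < N then _ else _) = _
          rw [dif_neg (by omega)]
        have e2 : (par p η π).pad (p.g T) = p.pad (p.g T) := by
          show (if h : n + 1 ≤ (p.g T).length ∧ (p.g T).length < N then _ else _) = _
          rw [dif_neg (by rw [hp.g_len]; omega)]
        have e3 : st (lang Mach (par p η π)) T = st (lang Mach p) T :=
          st_congr fun x hx => (lang_local hp hw par_agr
            (by have := le_maxlen hx; omega)).symm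
        unfold nm
        rw [e1, e2, e3]
      by_cases hy : ∃ y w, q = wQ y w
      · obtain ⟨y, w, rfl⟩ := hy
        rw [Bool.eq_iff_iff, orc_wQ hw, orc_wQ hp]
        have hlen : (wQ y w).length = 2 * y.length + w.length + 3 := by
          simp only [wQ, List.length_cons, pairStr_length']
        have hyn : y.length < n := by
          by_contra hcon
          exact h2 ⟨y, not_lt.1 hcon, by have := hs.1; omega⟩ w rfl
        have e1 : (par p η π).om y = p.om y := by
          show (if h : n ≤ y.length ∧ y.length < N then _ else _) = _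
          rw [dif_neg (by omega)]
        rw [e1, yesN_congr par_agr.symm hyn.le]
      · have hk : ∀ r w, q ≠ kQ r w := fun r w e => hs.2 ⟨r, w, e⟩
        rw [orc_other hw (fun x w e => hb ⟨x, w, e⟩) (fun j T e => hh ⟨j, T, e⟩)
          (fun y w e => hy ⟨y, w, e⟩) hk, orc_other hp (fun x w e => hb ⟨x, w, e⟩)
          (fun j T e => hh ⟨j, T, e⟩) (fun y w e => hy ⟨y, w, e⟩) hk]
    · refine ⟨false, fun η hη π => ?_⟩
      show (if Sh N q then orc Mach (par p η π) q else false) = _
      rw [if_neg hs]
  plain := by
    intro q x c u hq η hη π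
    obtain ⟨hs, rfl⟩ := clsW_plain hq
    show (if Sh N _ then orc Mach (par p η π) (bQ x.1 (c :: u)) else false) = true ↔ _
    rw [if_pos hs, orc_bQ (par_wf hp hη), par_base]
    have h1 : η (cb x) ∈ ({[false], [true]} : Finset Str) := hη (cb x)
    rw [mem_insert, mem_singleton] at h1
    rcases h1 with h1 | h1 <;> rw [h1] <;> simp [eq_comm]
  wit := by
    intro q y w hq η hη π h
    obtain ⟨hs, rfl⟩ := clsW_wit hq
    have h' : (if Sh N (wQ y.1 w) then orc Mach (par p η π) (wQ y.1 w) else false) = true := h
    rw [if_pos hs, orc_wQ (par_wf hp hη), par_om] at h'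
    exact h'.2.symm
  inj := by
    intro q q' y w hq hq'
    rw [(clsW_wit hq).2, (clsW_wit hq').2]
  hash := by
    intro q t f hq η hη π
    obtain ⟨hs, j, rfl, rfl⟩ := clsW_hash hq
    show (if Sh N _ then orc Mach (par p η π) (hashQ j t.1) else false) = _
    rw [if_pos hs, orc_hash (par_wf hp hη)]
    unfold nm
    rw [par_g]
    rfl
  count := by
    intro η hη S hS v
    exact le_trans (Nat.mul_le_mul_right _ (card_filter_inst _ _ _ _ _))
      (pad_count Mach hp hn hη S hS v)

/-! ### the trees of the runs -/

theorem run_eval {Mach : ℕ → OProc} (hp : p.WF) {η : WC n N → Str} (hη : ∀ c, η c ∈ E0 c)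
    (π : IP n N → Bool) (M : OProc) (inp : Str) {t : ℕ} (ht : t ≤ N) :
    (tsim (qtn Mach N) M inp t []).eval ((gameW Mach p n N).B η π) =
      sim (orc Mach (par p η π)) M inp t [] := by
  have hw := par_wf (π := π) hp hη
  have hq : ∀ q : Str, q.length < N → (qtn Mach N q).eval (orc Mach (par p η π)) =
      orc Mach (par p η π) q := qtn_eval (fun r w => orc_kQ hw r w) N
  rw [← tsim_eval M inp t [] fun q hq' => hq q (by omega)]
  refine (QTree.eval_congr (B := orc Mach (par p η π)) fun q hq' => ?_).1
  have h1 := tsim_asked (QT := qtn Mach N) (orc Mach (par p η π)) M inp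
    (P := fun q => q.length < N ∧ ¬ KType q) t []
    (fun q' hq'' q'' hq3 => by
      have := qtn_asked (Mach := Mach) (orc Mach (par p η π)) N q' (by omega) q'' hq3
      exact ⟨by omega, this.2⟩) q hq'
  show (if Sh N q then orc Mach (par p η π) q else false) = _
  rw [if_pos (show Sh N q from h1)]

theorem run_depth (Mach : ℕ → OProc) (M : OProc) (inp : Str) {t : ℕ} (ht : t ≤ N) :
    (tsim (qtn Mach N) M inp t []).depth ≤ t :=
  tsim_depth M inp t [] fun q hq => qtn_depth N q (by omega)

end

end OEth
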