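import Pool.Agent.Work.MP_609cce_lc_eth.EGame

/-!
# The guessing game: the induction
-/

namespace OEth

open Orc Finset
open Classical

set_option linter.unusedSectionVars false

variable {X Y T P Q : Type} [Fintype X] [Fintype Y] [Fintype T] [Fintype P]

theorem right_cons {G : Game X Y T P Q} {x : X} {t : QTree Q} {L : List (X × QTree Q)}
    {θ : (Co X Y T → List Bool) × (P → Bool)} : Right G ((x, t) :: L) θ ↔
      t.eval (G.B θ.1 θ.2) = (θ.1 (cb x)).headD false ∧ Right G L θ := by
  unfold Right
  rw [List.forall_mem_cons]

/-- the members of `F` with the property `Z` -/
noncomputable def sel {α : Type} (F : Finset α) (Z : α → Prop) : Finset α :=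
  @Finset.filter α Z (Classical.decPred Z) F

theorem mem_sel {α : Type} {F : Finset α} {Z : α → Prop} {θ : α} :
    θ ∈ sel F Z ↔ θ ∈ F ∧ Z θ := by
  unfold sel
  exact @mem_filter α Z (Classical.decPred Z) F θ

theorem sel_true {α : Type} (F : Finset α) : sel F (fun _ => True) = F := by
  ext θ
  rw [mem_sel, and_true]

/-- the facts about the queries of `t` -/
noncomputable def factH (G : Game X Y T P Q) (κ : Q → Option Bool) (t : T) (γ : List Bool)
    (b : Bool) (q : Q) : Option Bool :=
  match G.cls q with
  | .hash t' f => if t' = t then some (f γ b) else κ q
  | _ => κ q

theorem factH_hash {G : Game X Y T P Q} {κ : Q → Option Bool} {t : T} {γ : List Bool}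
    {b : Bool} {q : Q} {f : List Bool → Bool → Bool} (h : G.cls q = .hash t f) :
    factH G κ t γ b q = some (f γ b) := by
  unfold factH
  rw [h]
  simp

theorem factH_cases (G : Game X Y T P Q) (κ : Q → Option Bool) (t : T) (γ : List Bool)
    (b : Bool) (q : Q) : (∃ f, G.cls q = .hash t f ∧ factH G κ t γ b q = some (f γ b)) ∨
      factH G κ t γ b q = κ q := by
  unfold factH
  cases h : G.cls q with
  | hash t' f =>
    by_cases ht : t' = t
    · subst ht
      exact Or.inl ⟨f, rfl, by simp⟩
    · exact Or.inr (by simp [ht])
  | fix => exact Or.inr rfl
  | plain x c u => exact Or.inr rfl
  | wit y w => exact Or.inr rfl

theorem factH_ne_none {G : Game X Y T P Q} {κ : Q → Option Bool} {t : T} {γ : List Bool}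
    {b : Bool} {q : Q} (h : κ q ≠ none) : factH G κ t γ b q ≠ none := by
  rcases factH_cases G κ t γ b q with ⟨f, _, h1⟩ | h1
  · rw [h1]; simp
  · rw [h1]; exact h

theorem game_bound {G : Game X Y T P Q} {E0 : Co X Y T → Finset (List Bool)} {H : ℕ}
    (hG : G.OK E0 H) {δ : ℝ} {D : ℕ} (hδ : 0 ≤ δ) (hD1 : ∀ a : ℕ, H ≤ a + D → 1 ≤ δ * a)
    (hD2 : (D : ℝ) ≤ δ * H) :
    ∀ L : List (X × QTree Q), (L.map Prod.fst).Nodup →
      ∀ k E S v κ, St G E0 H k E S κ → k + dsum L ≤ D →
      (((worlds G E S v κ).filter (Right G L)).card : ℝ) ≤
        mass E S * pot E (L.map Prod.fst) * 2 ^ Fintype.card P * (1 + δ) ^ dsum L := by
  intro L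
  induction L with
  | nil =>
    intro _ k E S v κ hSt _
    have h1 := worlds_card hG (v := v) hSt
    have h2 : ((worlds G E S v κ).filter (Right G [])).card ≤ (worlds G E S v κ).card :=
      card_filter_le _ _
    have h3 : (((worlds G E S v κ).filter (Right G [])).card : ℝ) ≤ (worlds G E S v κ).card := by
      exact_mod_cast h2
    simpa [pot, dsum] using h3.trans h1
  | cons p L' ihL =>
    obtain ⟨x, t⟩ := p
    intro hnd
    rw [List.map_cons, List.nodup_cons] at hnd
    have ihL := ihL hnd.2
    have hnx : x ∉ L'.map Prod.fst := hnd.1
    have hnd' : (x :: L'.map Prod.fst).Nodup := List.nodup_cons.2 hnd
    clear hnd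
    have hone : (1 : ℝ) ≤ 1 + δ := by linarith
    induction t with
    | ret a =>
      intro k E S v κ hSt hk
      have hd : dsum ((x, QTree.ret a) :: L') = dsum L' := by
        simp [dsum, QTree.depth]
      rw [hd] at hk ⊢
      -- only the value `a` of the bit remains
      by_cases ha : [a] ∈ E (cb x)
      · set E1 := Function.update E (cb x) {[a]} with hE1
        have hSt1 : St G E0 H k E1 S κ := by
          refine ⟨fun c => ?_, hSt.sc, fun x' => ?_, fun x' => ?_, fun y => ?_, fun t => ?_, ?_⟩
          · by_cases hc : c = cb x
            · subst hc
              rw [hE1, Function.update_self]
              exact (singleton_subset_iff.2 ha).trans (hSt.sub _)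
            · rw [hE1, Function.update_of_ne hc]
              exact hSt.sub c
          · by_cases hx : x' = x
            · subst hx
              exact Or.inr ⟨a, by rw [hE1, Function.update_self]⟩
            · rw [hE1, Function.update_of_ne (by simpa using hx)]
              exact hSt.hb x'
          · rcases hSt.hu x' with h | ⟨u, b, h1, h2⟩
            · left
              rw [hE1, Function.update_of_ne (by simp)]
              exact h
            · right
              by_cases hx : x' = x
              · subst hx
                refine ⟨u, a, ?_, ?_⟩
                · rw [hE1, Function.update_of_ne (by simp)]
                  exact h1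
                · rw [hE1, Function.update_self]
              · refine ⟨u, b, ?_, ?_⟩
                · rw [hE1, Function.update_of_ne (by simp)]
                  exact h1
                · rw [hE1, Function.update_of_ne (by simpa using hx)]
                  exact h2
          · rw [hE1, Function.update_of_ne (by simp)]
            exact hSt.ho y
          · rw [hE1, Function.update_of_ne (by simp)]
            exact hSt.hg t
          · intro t ht t' ht' h
            rw [hE1, Function.update_of_ne (by simp), Function.update_of_ne (by simp)] at h
            exact hSt.inj t ht t' ht' h
        have h1 := ihL k E1 S v κ hSt1 hk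
        have h2 : (worlds G E S v κ).filter (Right G ((x, QTree.ret a) :: L')) ⊆
            (worlds G E1 S v κ).filter (Right G L') := by
          intro θ hθ
          rw [mem_filter, right_cons] at hθ
          obtain ⟨h3, h4, h5⟩ := hθ
          obtain ⟨h6, h7, h8⟩ := mem_worlds.1 h3
          rw [mem_filter]
          refine ⟨mem_worlds.2 ⟨fun c => ?_, h7, h8⟩, h5⟩
          by_cases hc : c = cb x
          · subst hc
            rw [hE1, Function.update_self, mem_singleton]
            have h9 := h6 (cb x)
            have h10 : θ.1 (cb x) = [false] ∨ θ.1 (cb x) = [true] := by
              have := hSt.sub (cb x) h9
              rw [hG.eb, mem_insert, mem_singleton] at this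
              exact this
            simp only [QTree.eval] at h4
            rcases h10 with h10 | h10 <;> rw [h10] at h4 ⊢ <;> simp at h4 <;> rw [h4]
          · rw [hE1, Function.update_of_ne hc]
            exact h6 c
        have h3 : (((worlds G E S v κ).filter (Right G ((x, QTree.ret a) :: L'))).card : ℝ) ≤
            ((worlds G E1 S v κ).filter (Right G L')).card := by
          exact_mod_cast card_le_card h2
        refine (h3.trans h1).trans (le_of_eq ?_)
        have h4 := mass_update E S (cb x) {[a]}
        rw [card_singleton, Nat.cast_one, mul_one, ← hE1] at h4
        have h5 : pot E1 (L'.map Prod.fst) = pot E (L'.map Prod.fst) :=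
          pot_update E (cb x) _ _ fun x' hx' h => hnx (by
            have : x' = x := by simpa using h
            rw [← this]; exact hx')
        have h6 : ((E (cb x)).card : ℝ) ≠ 0 := by
          have := hSt.cb_card x
          positivity
        have h7 : pot E (((x, QTree.ret a) :: L').map Prod.fst) =
            ((E (cb x)).card : ℝ)⁻¹ * pot E (L'.map Prod.fst) := by
          simp [pot]
        rw [h5, h7, ← h4]
        field_simp
      · -- no world is right
        have h2 : (worlds G E S v κ).filter (Right G ((x, QTree.ret a) :: L')) = ∅ := by
          rw [filter_eq_empty_iff]
          intro θ hθ hR
          obtain ⟨h6, h7, h8⟩ := mem_worlds.1 hθ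
          rw [right_cons] at hR
          have h9 := h6 (cb x)
          have h10 : θ.1 (cb x) = [false] ∨ θ.1 (cb x) = [true] := by
            have := hSt.sub (cb x) h9
            rw [hG.eb, mem_insert, mem_singleton] at this
            exact this
          have h4 := hR.1
          simp only [QTree.eval] at h4
          apply ha
          rcases h10 with h10 | h10 <;> rw [h10] at h4 h9 <;> simp at h4 <;> rw [h4] <;> exact h9
        rw [h2, card_empty, Nat.cast_zero]
        have := mass_nonneg E S
        have := pot_nonneg E (((x, QTree.ret a) :: L').map Prod.fst)
        positivity
    | ask q t0 t1 ih0 ih1 =>
      intro k E S v κ hSt hk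
      have hd0 : ∀ t : QTree Q, dsum ((x, t) :: L') = t.depth + dsum L' := by
        intro t
        simp [dsum]
      rw [hd0, QTree.depth] at hk ⊢
      set F := (worlds G E S v κ).filter (Right G ((x, QTree.ask q t0 t1) :: L')) with hF
      set xs : List X := x :: L'.map Prod.fst with hxs
      have hxs' : ∀ t : QTree Q, ((x, t) :: L').map Prod.fst = xs := fun t => by
        rw [hxs, List.map_cons]
      rw [hxs']
      set d := max t0.depth t1.depth + dsum L' with hd
      set N : ℝ := 2 ^ Fintype.card P with hN
      set R : ℝ := (1 + δ) ^ d with hR
      have hN0 : 0 ≤ N := by positivity
      have hR0 : 0 ≤ R := by positivity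
      have hfin : (1 + δ) ^ (max t0.depth t1.depth + 1 + dsum L') = R * (1 + δ) := by
        rw [hR, hd, ← pow_succ]
        congr 1
        omega
      rw [hfin]
      have part : ∀ (Z : (Co X Y T → List Bool) × (P → Bool) → Prop) (a : Bool) (k' : ℕ)
          (E' : Co X Y T → Finset (List Bool)) (S' : Finset T) (v' : T → Bool)
          (κ' : Q → Option Bool), St G E0 H k' E' S' κ' → k' + d ≤ D →
          (∀ θ ∈ F, Z θ → θ ∈ worlds G E' S' v' κ' ∧ G.B θ.1 θ.2 q = a) →
          ((sel F Z).card : ℝ) ≤ mass E' S' * pot E' xs * N * R := by
        intro Z a k' E' S' v' κ' hSt' hk' hZ
        have h1 : sel F Z ⊆ (worlds G E' S' v' κ').filter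
            (Right G ((x, bif a then t1 else t0) :: L')) := by
          intro θ hθ
          rw [mem_sel] at hθ
          obtain ⟨h2, h3⟩ := hZ θ hθ.1 hθ.2
          rw [mem_filter, right_cons]
          have h4 := (mem_filter.1 hθ.1).2
          rw [right_cons] at h4
          refine ⟨h2, ?_, h4.2⟩
          rw [← h4.1]
          simp only [QTree.eval, h3]
          cases a <;> rfl
        have h2 : ((sel F Z).card : ℝ) ≤ ((worlds G E' S' v' κ').filter
            (Right G ((x, bif a then t1 else t0) :: L'))).card := by
          exact_mod_cast card_le_card h1
        refine h2.trans ?_
        have hnn : 0 ≤ mass E' S' * pot E' xs * N :=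
          mul_nonneg (mul_nonneg (mass_nonneg _ _) (pot_nonneg _ _)) hN0
        cases a with
        | false =>
          have h3 := ih0 k' E' S' v' κ' hSt' (by rw [hd0]; omega)
          rw [hd0, hxs'] at h3
          refine h3.trans (mul_le_mul_of_nonneg_left ?_ hnn)
          exact pow_le_pow_right₀ hone (by omega)
        | true =>
          have h3 := ih1 k' E' S' v' κ' hSt' (by rw [hd0]; omega)
          rw [hd0, hxs'] at h3
          refine h3.trans (mul_le_mul_of_nonneg_left ?_ hnn)
          exact pow_le_pow_right₀ hone (by omega)
      have hΨ : 0 ≤ mass E S * pot E xs := mul_nonneg (mass_nonneg _ _) (pot_nonneg _ _)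
      set Ψ : ℝ := mass E S * pot E xs with hΨd
      have hFw : ∀ θ ∈ F, θ ∈ worlds G E S v κ := fun θ hθ => (mem_filter.1 hθ).1
      -- determined answers
      have det : ∀ a : Bool, (∀ θ ∈ F, G.B θ.1 θ.2 q = a) →
          (F.card : ℝ) ≤ Ψ * N * (R * (1 + δ)) := by
        intro a ha
        have h1 := part (fun _ => True) a k E S v κ hSt (by omega)
          fun θ hθ _ => ⟨hFw θ hθ, ha θ hθ⟩
        rw [sel_true] at h1
        refine h1.trans ?_
        rw [← hΨd, ← mul_assoc]
        exact le_mul_of_one_le_right (by positivity) hone
      have hmemE : ∀ θ ∈ F, ∀ c, θ.1 c ∈ E c := fun θ hθ => (mem_worlds.1 (hFw θ hθ)).1
      have hmem0 : ∀ θ ∈ F, ∀ c, θ.1 c ∈ E0 c := fun θ hθ c => hSt.sub c (hmemE θ hθ c)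
      cases hκ : κ q with
      | some a =>
        exact det a fun θ hθ => (mem_worlds.1 (hFw θ hθ)).2.2 q a hκ
      | none =>
        cases hc : G.cls q with
        | fix =>
          obtain ⟨a, ha⟩ := hG.fix q hc
          exact det a fun θ hθ => ha θ.1 (hmem0 θ hθ) θ.2
        | plain x0 c u =>
          have hpl := fun θ hθ => hG.plain q x0 c u hc θ.1 (hmem0 θ hθ) θ.2
          by_cases hu : u ∈ E (cu x0)
          · rcases hSt.hu x0 with hH | ⟨u0, b0, h1, h2⟩
            · -- the main case
              set a : ℝ := ((E (cu x0)).card : ℝ) with ha
              have ha1 : 1 ≤ δ * a := hD1 _ (by omega)
              have ha0 : 0 < a := by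
                rcases eq_or_lt_of_le (show (0 : ℝ) ≤ a by positivity) with h | h
                · rw [← h] at ha1; norm_num at ha1
                · exact h
              -- miss
              set E1 := Function.update E (cu x0) ((E (cu x0)).erase u) with hE1
              have hSt1 : St G E0 H (k + 1) E1 S κ := by
                refine ⟨fun c => ?_, hSt.sc.trans (Nat.le_succ _), fun x' => ?_, fun x' => ?_,
                  fun y => ?_, fun t => ?_, ?_⟩
                · by_cases hc : c = cu x0
                  · subst hc
                    rw [hE1, Function.update_self]
                    exact (erase_subset _ _).trans (hSt.sub _)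
                  · rw [hE1, Function.update_of_ne hc]
                    exact hSt.sub c
                · rw [hE1, Function.update_of_ne (by simp)]
                  exact hSt.hb x'
                · by_cases hx : x' = x0
                  · subst hx
                    left
                    rw [hE1, Function.update_self, card_erase_of_mem hu]
                    omega
                  · rw [hE1, Function.update_of_ne (by simpa using hx),
                      Function.update_of_ne (by simp)]
                    rcases hSt.hu x' with h | h
                    · left; omega
                    · right; exact h
                · rw [hE1, Function.update_of_ne (by simp)]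
                  rcases hSt.ho y with h | h
                  · left; omega
                  · right; exact h
                · rw [hE1, Function.update_of_ne (by simp)]
                  exact hSt.hg t
                · intro t ht t' ht' h
                  rw [hE1, Function.update_of_ne (by simp), Function.update_of_ne (by simp)] at h
                  exact hSt.inj t ht t' ht' h
              have p1 := part (fun θ => θ.1 (cu x0) ≠ u) false (k + 1) E1 S v κ hSt1 (by omega)
                (by
                  intro θ hθ hne
                  obtain ⟨h6, h7, h8⟩ := mem_worlds.1 (hFw θ hθ)
                  refine ⟨mem_worlds.2 ⟨fun c' => ?_, h7, h8⟩, ?_⟩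
                  · by_cases hc' : c' = cu x0
                    · subst hc'
                      rw [hE1, Function.update_self, mem_erase]
                      exact ⟨hne, h6 _⟩
                    · rw [hE1, Function.update_of_ne hc']
                      exact h6 c'
                  · rw [Bool.eq_false_iff]
                    intro h
                    exact hne ((hpl θ hθ).1 h).2)
              -- hit
              have hhit : ∀ b : Bool, ((sel F fun θ => θ.1 (cu x0) = u ∧
                  θ.1 (cb x0) = [b]).card : ℝ) ≤ Ψ / a * N * R := by
                intro b
                set E' := Function.update E (cu x0) {u} with hE'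
                set E2 := Function.update E' (cb x0) {[b]} with hE2
                have hSt2 : St G E0 H (k + 1) E2 S κ := by
                  refine ⟨fun c => ?_, hSt.sc.trans (Nat.le_succ _), fun x' => ?_, fun x' => ?_,
                    fun y => ?_, fun t => ?_, ?_⟩
                  · by_cases hc : c = cb x0
                    · subst hc
                      rw [hE2, Function.update_self, hG.eb]
                      cases b <;> simp
                    · rw [hE2, Function.update_of_ne hc]
                      by_cases hc' : c = cu x0
                      · subst hc'
                        rw [hE', Function.update_self]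
                        exact (singleton_subset_iff.2 hu).trans (hSt.sub _)
                      · rw [hE', Function.update_of_ne hc']
                        exact hSt.sub c
                  · by_cases hx : x' = x0
                    · subst hx
                      exact Or.inr ⟨b, by rw [hE2, Function.update_self]⟩
                    · rw [hE2, Function.update_of_ne (by simpa using hx), hE',
                        Function.update_of_ne (by simp)]
                      exact hSt.hb x'
                  · by_cases hx : x' = x0
                    · subst hx
                      right
                      refine ⟨u, b, ?_, ?_⟩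
                      · rw [hE2, Function.update_of_ne (by simp), hE', Function.update_self]
                      · rw [hE2, Function.update_self]
                    · rw [hE2, Function.update_of_ne (by simp), hE',
                        Function.update_of_ne (by simpa using hx),
                        Function.update_of_ne (by simpa using hx), Function.update_of_ne (by simp)]
                      rcases hSt.hu x' with h | h
                      · left; omega
                      · right; exact h
                  · rw [hE2, Function.update_of_ne (by simp), hE',
                      Function.update_of_ne (by simp)]
                    rcases hSt.ho y with h | h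
                    · left; omega
                    · right; exact h
                  · rw [hE2, Function.update_of_ne (by simp), hE',
                      Function.update_of_ne (by simp)]
                    exact hSt.hg t
                  · intro t ht t' ht' h
                    rw [hE2, Function.update_of_ne (by simp), Function.update_of_ne (by simp),
                      hE', Function.update_of_ne (by simp), Function.update_of_ne (by simp)] at h
                    exact hSt.inj t ht t' ht' h
                have p2 := part (fun θ => θ.1 (cu x0) = u ∧ θ.1 (cb x0) = [b]) (decide (b = c))
                  (k + 1) E2 S v κ hSt2 (by omega)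
                  (by
                    rintro θ hθ ⟨hu1, hb1⟩
                    obtain ⟨h6, h7, h8⟩ := mem_worlds.1 (hFw θ hθ)
                    refine ⟨mem_worlds.2 ⟨fun c' => ?_, h7, h8⟩, ?_⟩
                    · by_cases hc' : c' = cb x0
                      · subst hc'
                        rw [hE2, Function.update_self, mem_singleton]
                        exact hb1
                      · rw [hE2, Function.update_of_ne hc']
                        by_cases hc'' : c' = cu x0
                        · subst hc''
                          rw [hE', Function.update_self, mem_singleton]
                          exact hu1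
                        · rw [hE', Function.update_of_ne hc'']
                          exact h6 c'
                    · rw [Bool.eq_iff_iff, hpl θ hθ, hb1, hu1, decide_eq_true_eq]
                      simp)
                refine p2.trans (mul_le_mul_of_nonneg_right (mul_le_mul_of_nonneg_right ?_ hN0)
                  hR0)
                have h3 := mass_update E S (cu x0) {u}
                have h4 := mass_update E' S (cb x0) {[b]}
                have h5 : E' (cb x0) = E (cb x0) := by
                  rw [hE', Function.update_of_ne (by simp)]
                have h6 := pot_update_cb E' x0 b (fun x' => by
                  rw [hE', Function.update_of_ne (by simp)]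
                  exact hSt.cb_card x') xs hnd'
                have h7 : pot E' xs = pot E xs := pot_update E (cu x0) _ _ fun x' _ => by simp
                rw [card_singleton, Nat.cast_one, mul_one, ← hE'] at h3
                rw [card_singleton, Nat.cast_one, mul_one, ← hE2, h5] at h4
                rw [← hE2, h5, h7] at h6
                have h8 : 0 ≤ mass E2 S := mass_nonneg _ _
                calc mass E2 S * pot E2 xs ≤ mass E2 S * (pot E xs * ((E (cb x0)).card : ℝ)) :=
                      mul_le_mul_of_nonneg_left h6 h8
                  _ = (mass E2 S * (E (cb x0)).card) * pot E xs := by ring
                  _ = mass E' S * pot E xs := by rw [h4]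
                  _ = Ψ / a := by
                      rw [eq_div_iff ha0.ne', hΨd, ← h3]
                      ring
              have hcov : F ⊆ sel F (fun θ => θ.1 (cu x0) ≠ u) ∪
                  ((sel F fun θ => θ.1 (cu x0) = u ∧ θ.1 (cb x0) = [false]) ∪
                    (sel F fun θ => θ.1 (cu x0) = u ∧ θ.1 (cb x0) = [true])) := by
                intro θ hθ
                have h9 := hmem0 θ hθ (cb x0)
                rw [hG.eb, mem_insert, mem_singleton] at h9
                simp only [mem_union, mem_sel]
                by_cases h : θ.1 (cu x0) = u
                · rcases h9 with h9 | h9
                  · exact Or.inr (Or.inl ⟨hθ, h, h9⟩)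
                  · exact Or.inr (Or.inr ⟨hθ, h, h9⟩)
                · exact Or.inl ⟨hθ, h⟩
              have hcard : (F.card : ℝ) ≤ (sel F (fun θ => θ.1 (cu x0) ≠ u)).card +
                  (((sel F fun θ => θ.1 (cu x0) = u ∧ θ.1 (cb x0) = [false]).card : ℝ) +
                    (sel F fun θ => θ.1 (cu x0) = u ∧ θ.1 (cb x0) = [true]).card) := by
                have h10 := (card_le_card hcov).trans (card_union_le _ _)
                have h11 := card_union_le
                  (sel F fun θ => θ.1 (cu x0) = u ∧ θ.1 (cb x0) = [false])
                  (sel F fun θ => θ.1 (cu x0) = u ∧ θ.1 (cb x0) = [true])
                exact_mod_cast h10.trans (Nat.add_le_add_left h11 _)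
              have hm1 : mass E1 S * pot E1 xs = Ψ * (a - 1) / a := by
                have h3 := mass_update E S (cu x0) ((E (cu x0)).erase u)
                rw [← hE1, cast_card_erase_of_mem hu] at h3
                have h7 : pot E1 xs = pot E xs := pot_update E (cu x0) _ _ fun x' _ => by simp
                rw [h7, eq_div_iff ha0.ne', hΨd]
                calc mass E1 S * pot E xs * a = (mass E1 S * a) * pot E xs := by ring
                  _ = (mass E S * (a - 1)) * pot E xs := by rw [h3]
                  _ = _ := by ring
              rw [hm1] at p1
              have q0 := hhit false
              have q1 := hhit true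
              have htot : Ψ * (a - 1) / a + 2 * (Ψ / a) ≤ Ψ * (1 + δ) := by
                have h12 : Ψ * (a - 1) / a + 2 * (Ψ / a) = Ψ + Ψ / a := by
                  field_simp
                  ring
                have h13 : Ψ / a ≤ Ψ * δ := by
                  rw [div_le_iff₀ ha0]
                  nlinarith
                rw [h12]
                linarith
              calc (F.card : ℝ) ≤ Ψ * (a - 1) / a * N * R + (Ψ / a * N * R + Ψ / a * N * R) :=
                    hcard.trans (add_le_add p1 (add_le_add q0 q1))
                _ = (Ψ * (a - 1) / a + 2 * (Ψ / a)) * (N * R) := by ring
                _ ≤ (Ψ * (1 + δ)) * (N * R) := mul_le_mul_of_nonneg_right htot (by positivity)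
                _ = _ := by ring
            · -- everything about `x0` is known
              refine det (decide ([b0] = [c] ∧ u0 = u)) fun θ hθ => ?_
              have h3 := hmemE θ hθ (cu x0)
              have h4 := hmemE θ hθ (cb x0)
              rw [h1, mem_singleton] at h3
              rw [h2, mem_singleton] at h4
              rw [Bool.eq_iff_iff, hpl θ hθ, decide_eq_true_eq, h3, h4]
          · refine det false fun θ hθ => ?_
            rw [Bool.eq_false_iff]
            intro h
            exact hu (((hpl θ hθ).1 h).2 ▸ hmemE θ hθ (cu x0))
        | wit y w =>
          have hw := fun θ hθ => hG.wit q y w hc θ.1 (hmem0 θ hθ) θ.2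
          by_cases hwE : w ∈ E (co y)
          · rcases hSt.ho y with hH | ⟨w0, h1, h2⟩
            · set a : ℝ := ((E (co y)).card : ℝ) with ha
              have ha1 : 1 ≤ δ * a := hD1 _ (by omega)
              have ha0 : 0 < a := by
                rcases eq_or_lt_of_le (show (0 : ℝ) ≤ a by positivity) with h | h
                · rw [← h] at ha1; norm_num at ha1
                · exact h
              set E1 := Function.update E (co y) ((E (co y)).erase w) with hE1
              have hSt1 : St G E0 H (k + 1) E1 S κ := by
                refine ⟨fun c => ?_, hSt.sc.trans (Nat.le_succ _), fun x' => ?_, fun x' => ?_,
                  fun y' => ?_, fun t => ?_, ?_⟩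
                · by_cases hc : c = co y
                  · subst hc
                    rw [hE1, Function.update_self]
                    exact (erase_subset _ _).trans (hSt.sub _)
                  · rw [hE1, Function.update_of_ne hc]
                    exact hSt.sub c
                · rw [hE1, Function.update_of_ne (by simp)]
                  exact hSt.hb x'
                · rw [hE1, Function.update_of_ne (by simp), Function.update_of_ne (by simp)]
                  rcases hSt.hu x' with h | h
                  · left; omega
                  · right; exact h
                · by_cases hy : y' = y
                  · subst hy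
                    left
                    rw [hE1, Function.update_self, card_erase_of_mem hwE]
                    omega
                  · rw [hE1, Function.update_of_ne (by simpa using hy)]
                    rcases hSt.ho y' with h | h
                    · left; omega
                    · right; exact h
                · rw [hE1, Function.update_of_ne (by simp)]
                  exact hSt.hg t
                · intro t ht t' ht' h
                  rw [hE1, Function.update_of_ne (by simp), Function.update_of_ne (by simp)] at h
                  exact hSt.inj t ht t' ht' h
              have p1 := part (fun θ => θ.1 (co y) ≠ w) false (k + 1) E1 S v κ hSt1 (by omega)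
                (by
                  intro θ hθ hne
                  obtain ⟨h6, h7, h8⟩ := mem_worlds.1 (hFw θ hθ)
                  refine ⟨mem_worlds.2 ⟨fun c' => ?_, h7, h8⟩, ?_⟩
                  · by_cases hc' : c' = co y
                    · subst hc'
                      rw [hE1, Function.update_self, mem_erase]
                      exact ⟨hne, h6 _⟩
                    · rw [hE1, Function.update_of_ne hc']
                      exact h6 c'
                  · rw [Bool.eq_false_iff]
                    intro h
                    exact hne (hw θ hθ h))
              have hhit : ∀ b : Bool, ((sel F fun θ => θ.1 (co y) = w ∧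
                  G.B θ.1 θ.2 q = b).card : ℝ) ≤ Ψ / a * N * R := by
                intro b
                set E2 := Function.update E (co y) {w} with hE2
                set κ' : Q → Option Bool := Function.update κ q (some b) with hκ'
                have hκ'2 : ∀ q', κ q' ≠ none → κ' q' ≠ none := by
                  intro q' h
                  by_cases hq : q' = q
                  · rw [hκ', hq, Function.update_self]; simp
                  · rw [hκ', Function.update_of_ne hq]; exact h
                have hSt2 : St G E0 H (k + 1) E2 S κ' := by
                  refine ⟨fun c => ?_, hSt.sc.trans (Nat.le_succ _), fun x' => ?_, fun x' => ?_,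
                    fun y' => ?_, fun t => ?_, ?_⟩
                  · by_cases hc : c = co y
                    · subst hc
                      rw [hE2, Function.update_self]
                      exact (singleton_subset_iff.2 hwE).trans (hSt.sub _)
                    · rw [hE2, Function.update_of_ne hc]
                      exact hSt.sub c
                  · rw [hE2, Function.update_of_ne (by simp)]
                    exact hSt.hb x'
                  · rw [hE2, Function.update_of_ne (by simp), Function.update_of_ne (by simp)]
                    rcases hSt.hu x' with h | h
                    · left; omega
                    · right; exact h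
                  · by_cases hy : y' = y
                    · subst hy
                      right
                      refine ⟨w, by rw [hE2, Function.update_self], fun q' w' h3 h4 => ?_⟩
                      subst h4
                      have h5 := hG.inj q' q y' w' h3 hc
                      rw [hκ', h5, Function.update_self]
                      simp
                    · rw [hE2, Function.update_of_ne (by simpa using hy)]
                      rcases hSt.ho y' with h | ⟨w0, h3, h4⟩
                      · left; omega
                      · right
                        exact ⟨w0, h3, fun q' w' h5 h6 => hκ'2 q' (h4 q' w' h5 h6)⟩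
                  · rw [hE2, Function.update_of_ne (by simp)]
                    rcases hSt.hg t with h | ⟨γ, h3, h4⟩
                    · exact Or.inl h
                    · refine Or.inr ⟨γ, h3, ?_⟩
                      rcases h4 with h4 | h4
                      · exact Or.inl h4
                      · exact Or.inr fun q' f h5 => hκ'2 q' (h4 q' f h5)
                  · intro t ht t' ht' h
                    rw [hE2, Function.update_of_ne (by simp), Function.update_of_ne (by simp)] at h
                    exact hSt.inj t ht t' ht' h
                have p2 := part (fun θ => θ.1 (co y) = w ∧ G.B θ.1 θ.2 q = b) b
                  (k + 1) E2 S v κ' hSt2 (by omega)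
                  (by
                    rintro θ hθ ⟨hw1, hb1⟩
                    obtain ⟨h6, h7, h8⟩ := mem_worlds.1 (hFw θ hθ)
                    refine ⟨mem_worlds.2 ⟨fun c' => ?_, h7, fun q' a' hq' => ?_⟩, hb1⟩
                    · by_cases hc' : c' = co y
                      · subst hc'
                        rw [hE2, Function.update_self, mem_singleton]
                        exact hw1
                      · rw [hE2, Function.update_of_ne hc']
                        exact h6 c'
                    · by_cases hq : q' = q
                      · rw [hκ', hq, Function.update_self, Option.some.injEq] at hq'
                        rw [hq, hb1, hq']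
                      · rw [hκ', Function.update_of_ne hq] at hq'
                        exact h8 q' a' hq')
                refine p2.trans (mul_le_mul_of_nonneg_right (mul_le_mul_of_nonneg_right ?_ hN0)
                  hR0)
                have h3 := mass_update E S (co y) {w}
                have h7 : pot E2 xs = pot E xs := pot_update E (co y) _ _ fun x' _ => by simp
                rw [card_singleton, Nat.cast_one, mul_one, ← hE2] at h3
                rw [h7, le_div_iff₀ ha0, hΨd, ← h3]
                exact le_of_eq (by ring)
              have hcov : F ⊆ sel F (fun θ => θ.1 (co y) ≠ w) ∪
                  ((sel F fun θ => θ.1 (co y) = w ∧ G.B θ.1 θ.2 q = false) ∪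
                    (sel F fun θ => θ.1 (co y) = w ∧ G.B θ.1 θ.2 q = true)) := by
                intro θ hθ
                simp only [mem_union, mem_sel]
                by_cases h : θ.1 (co y) = w
                · cases h9 : G.B θ.1 θ.2 q
                  · exact Or.inr (Or.inl ⟨hθ, h, rfl⟩)
                  · exact Or.inr (Or.inr ⟨hθ, h, rfl⟩)
                · exact Or.inl ⟨hθ, h⟩
              have hcard : (F.card : ℝ) ≤ (sel F (fun θ => θ.1 (co y) ≠ w)).card +
                  (((sel F fun θ => θ.1 (co y) = w ∧ G.B θ.1 θ.2 q = false).card : ℝ) +
                    (sel F fun θ => θ.1 (co y) = w ∧ G.B θ.1 θ.2 q = true).card) := by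
                have h10 := (card_le_card hcov).trans (card_union_le _ _)
                have h11 := card_union_le
                  (sel F fun θ => θ.1 (co y) = w ∧ G.B θ.1 θ.2 q = false)
                  (sel F fun θ => θ.1 (co y) = w ∧ G.B θ.1 θ.2 q = true)
                exact_mod_cast h10.trans (Nat.add_le_add_left h11 _)
              have hm1 : mass E1 S * pot E1 xs = Ψ * (a - 1) / a := by
                have h3 := mass_update E S (co y) ((E (co y)).erase w)
                rw [← hE1, cast_card_erase_of_mem hwE] at h3
                have h7 : pot E1 xs = pot E xs := pot_update E (co y) _ _ fun x' _ => by simp
                rw [h7, eq_div_iff ha0.ne', hΨd]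
                calc mass E1 S * pot E xs * a = (mass E1 S * a) * pot E xs := by ring
                  _ = (mass E S * (a - 1)) * pot E xs := by rw [h3]
                  _ = _ := by ring
              rw [hm1] at p1
              have q0 := hhit false
              have q1 := hhit true
              have htot : Ψ * (a - 1) / a + 2 * (Ψ / a) ≤ Ψ * (1 + δ) := by
                have h12 : Ψ * (a - 1) / a + 2 * (Ψ / a) = Ψ + Ψ / a := by
                  field_simp
                  ring
                have h13 : Ψ / a ≤ Ψ * δ := by
                  rw [div_le_iff₀ ha0]
                  nlinarith
                rw [h12]
                linarith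
              calc (F.card : ℝ) ≤ Ψ * (a - 1) / a * N * R + (Ψ / a * N * R + Ψ / a * N * R) :=
                    hcard.trans (add_le_add p1 (add_le_add q0 q1))
                _ = (Ψ * (a - 1) / a + 2 * (Ψ / a)) * (N * R) := by ring
                _ ≤ (Ψ * (1 + δ)) * (N * R) := mul_le_mul_of_nonneg_right htot (by positivity)
                _ = _ := by ring
            · refine det false fun θ hθ => ?_
              rw [Bool.eq_false_iff]
              intro h
              have h3 := hmemE θ hθ (co y)
              rw [h1, mem_singleton] at h3
              have h4 := hw θ hθ h
              exact h2 q w hc (h4.symm.trans h3) hκ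
          · refine det false fun θ hθ => ?_
            rw [Bool.eq_false_iff]
            intro h
            exact hwE (hw θ hθ h ▸ hmemE θ hθ (co y))
        | hash t f =>
          have hh := fun θ hθ => hG.hash q t f hc θ.1 (hmem0 θ hθ) θ.2
          rcases hSt.hg t with ⟨hH, htS⟩ | ⟨γ0, h1, h2⟩
          · set a : ℝ := ((E (cg t)).card : ℝ) with ha
            have ha1 : 1 ≤ δ * a := hD1 _ (by omega)
            have ha0 : 0 < a := by
              rcases eq_or_lt_of_le (show (0 : ℝ) ≤ a by positivity) with h | h
              · rw [← h] at ha1; norm_num at ha1
              · exact h
            set used : List Bool → Prop := fun γ => ∃ t' ∈ S, E (cg t') = {γ} with hused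
            have hpart : ∀ γ ∈ E (cg t), ∀ b : Bool, ((sel F fun θ => θ.1 (cg t) = γ ∧
                G.vis θ.1 θ.2 t = b).card : ℝ) ≤
                  (if used γ then Ψ / a else Ψ / a / 2) * N * R := by
              intro γ hγ b
              set E2 := Function.update E (cg t) {γ} with hE2
              have hm2 : mass E2 S * pot E2 xs = Ψ / a := by
                have h3 := mass_update E S (cg t) {γ}
                have h7 : pot E2 xs = pot E xs := pot_update E (cg t) _ _ fun x' _ => by simp
                rw [card_singleton, Nat.cast_one, mul_one, ← hE2] at h3
                rw [h7, eq_div_iff ha0.ne', hΨd, ← h3]
                ring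
              have hEsub : ∀ c, E2 c ⊆ E0 c := by
                intro c
                by_cases hc : c = cg t
                · subst hc
                  rw [hE2, Function.update_self]
                  exact (singleton_subset_iff.2 hγ).trans (hSt.sub _)
                · rw [hE2, Function.update_of_ne hc]
                  exact hSt.sub c
              by_cases hus : used γ
              · rw [if_pos hus]
                have hSt2 : St G E0 H (k + 1) E2 S (factH G κ t γ b) := by
                  refine ⟨hEsub, hSt.sc.trans (Nat.le_succ _), fun x' => ?_, fun x' => ?_,
                    fun y' => ?_, fun t' => ?_, ?_⟩
                  · rw [hE2, Function.update_of_ne (by simp)]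
                    exact hSt.hb x'
                  · rw [hE2, Function.update_of_ne (by simp), Function.update_of_ne (by simp)]
                    rcases hSt.hu x' with h | h
                    · left; omega
                    · right; exact h
                  · rw [hE2, Function.update_of_ne (by simp)]
                    rcases hSt.ho y' with h | ⟨w0, h3, h4⟩
                    · left; omega
                    · right
                      exact ⟨w0, h3, fun q' w' h5 h6 => factH_ne_none (h4 q' w' h5 h6)⟩
                  · by_cases ht : t' = t
                    · subst ht
                      refine Or.inr ⟨γ, by rw [hE2, Function.update_self], Or.inr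
                        fun q' f' h3 => ?_⟩
                      rw [factH_hash h3]
                      simp
                    · rw [hE2, Function.update_of_ne (by simpa using ht)]
                      rcases hSt.hg t' with h | ⟨γ', h3, h4⟩
                      · exact Or.inl h
                      · refine Or.inr ⟨γ', h3, ?_⟩
                        rcases h4 with h4 | h4
                        · exact Or.inl h4
                        · exact Or.inr fun q' f' h5 => factH_ne_none (h4 q' f' h5)
                  · intro t1 ht1 t2 ht2 h
                    have hne1 : t1 ≠ t := fun h => htS (h ▸ ht1)
                    have hne2 : t2 ≠ t := fun h => htS (h ▸ ht2)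
                    rw [hE2, Function.update_of_ne (by simpa using hne1),
                      Function.update_of_ne (by simpa using hne2)] at h
                    exact hSt.inj t1 ht1 t2 ht2 h
                have p2 := part (fun θ => θ.1 (cg t) = γ ∧ G.vis θ.1 θ.2 t = b) (f γ b)
                  (k + 1) E2 S v (factH G κ t γ b) hSt2 (by omega)
                  (by
                    rintro θ hθ ⟨hg1, hv1⟩
                    obtain ⟨h6, h7, h8⟩ := mem_worlds.1 (hFw θ hθ)
                    refine ⟨mem_worlds.2 ⟨fun c' => ?_, h7, fun q' a' hq' => ?_⟩, ?_⟩
                    · by_cases hc' : c' = cg t
                      · subst hc'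
                        rw [hE2, Function.update_self, mem_singleton]
                        exact hg1
                      · rw [hE2, Function.update_of_ne hc']
                        exact h6 c'
                    · rcases factH_cases G κ t γ b q' with ⟨f', h9, h10⟩ | h9
                      · rw [h10, Option.some.injEq] at hq'
                        rw [hG.hash q' t f' h9 θ.1 (hmem0 θ hθ) θ.2, hg1, hv1, hq']
                      · rw [h9] at hq'
                        exact h8 q' a' hq'
                    · rw [hh θ hθ, hg1, hv1])
                rw [hm2] at p2
                exact p2
              · rw [if_neg hus]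
                have hSt2 : St G E0 H (k + 1) E2 (insert t S) κ := by
                  refine ⟨hEsub, (card_insert_le _ _).trans (Nat.succ_le_succ hSt.sc),
                    fun x' => ?_, fun x' => ?_, fun y' => ?_, fun t' => ?_, ?_⟩
                  · rw [hE2, Function.update_of_ne (by simp)]
                    exact hSt.hb x'
                  · rw [hE2, Function.update_of_ne (by simp), Function.update_of_ne (by simp)]
                    rcases hSt.hu x' with h | h
                    · left; omega
                    · right; exact h
                  · rw [hE2, Function.update_of_ne (by simp)]
                    rcases hSt.ho y' with h | h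
                    · left; omega
                    · right; exact h
                  · by_cases ht : t' = t
                    · subst ht
                      exact Or.inr ⟨γ, by rw [hE2, Function.update_self],
                        Or.inl (mem_insert_self _ _)⟩
                    · rw [hE2, Function.update_of_ne (by simpa using ht)]
                      rcases hSt.hg t' with ⟨h, h'⟩ | ⟨γ', h3, h4⟩
                      · refine Or.inl ⟨h, fun h'' => ?_⟩
                        rcases mem_insert.1 h'' with h'' | h''
                        · exact ht h''
                        · exact h' h''
                      · refine Or.inr ⟨γ', h3, ?_⟩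
                        rcases h4 with h4 | h4
                        · exact Or.inl (mem_insert_of_mem h4)
                        · exact Or.inr h4
                  · intro t1 ht1 t2 ht2 h
                    by_cases h3 : t1 = t
                    · by_cases h4 : t2 = t
                      · rw [h3, h4]
                      · exfalso
                        have h5 : t2 ∈ S := (mem_insert.1 ht2).resolve_left h4
                        rw [h3, hE2, Function.update_self,
                          Function.update_of_ne (by simpa using h4)] at h
                        exact hus ⟨t2, h5, h.symm⟩
                    · have h6 : t1 ∈ S := (mem_insert.1 ht1).resolve_left h3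
                      by_cases h4 : t2 = t
                      · exfalso
                        rw [h4, hE2, Function.update_self,
                          Function.update_of_ne (by simpa using h3)] at h
                        exact hus ⟨t1, h6, h⟩
                      · have h5 : t2 ∈ S := (mem_insert.1 ht2).resolve_left h4
                        rw [hE2, Function.update_of_ne (by simpa using h3),
                          Function.update_of_ne (by simpa using h4)] at h
                        exact hSt.inj t1 h6 t2 h5 h
                have p2 := part (fun θ => θ.1 (cg t) = γ ∧ G.vis θ.1 θ.2 t = b) (f γ b)
                  (k + 1) E2 (insert t S) (Function.update v t b) κ hSt2 (by omega)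
                  (by
                    rintro θ hθ ⟨hg1, hv1⟩
                    obtain ⟨h6, h7, h8⟩ := mem_worlds.1 (hFw θ hθ)
                    refine ⟨mem_worlds.2 ⟨fun c' => ?_, fun t' ht' => ?_, h8⟩, ?_⟩
                    · by_cases hc' : c' = cg t
                      · subst hc'
                        rw [hE2, Function.update_self, mem_singleton]
                        exact hg1
                      · rw [hE2, Function.update_of_ne hc']
                        exact h6 c'
                    · by_cases ht : t' = t
                      · subst ht
                        rw [Function.update_self]
                        exact hv1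
                      · rw [Function.update_of_ne ht]
                        exact h7 t' ((mem_insert.1 ht').resolve_left ht)
                    · rw [hh θ hθ, hg1, hv1])
                have hm3 : mass E2 (insert t S) * pot E2 xs = Ψ / a / 2 := by
                  rw [← hm2]
                  have h3 : mass E2 (insert t S) = mass E2 S / 2 := by
                    unfold mass
                    rw [card_insert_of_notMem htS, pow_succ, div_div]
                  rw [h3]
                  ring
                rw [hm3] at p2
                exact p2
            have hcov : F ⊆ (E (cg t)).biUnion fun γ =>
                (sel F fun θ => θ.1 (cg t) = γ ∧ G.vis θ.1 θ.2 t = false) ∪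
                  (sel F fun θ => θ.1 (cg t) = γ ∧ G.vis θ.1 θ.2 t = true) := by
              intro θ hθ
              rw [mem_biUnion]
              refine ⟨θ.1 (cg t), hmemE θ hθ _, ?_⟩
              simp only [mem_union, mem_sel]
              cases h : G.vis θ.1 θ.2 t
              · exact Or.inl ⟨hθ, by simp⟩
              · exact Or.inr ⟨hθ, by simp⟩
            have hcard : (F.card : ℝ) ≤ ∑ γ ∈ E (cg t),
                (((sel F fun θ => θ.1 (cg t) = γ ∧ G.vis θ.1 θ.2 t = false).card : ℝ) +
                  (sel F fun θ => θ.1 (cg t) = γ ∧ G.vis θ.1 θ.2 t = true).card) := by
              have h10 := (card_le_card hcov).trans card_biUnion_le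
              have h11 : ∑ γ ∈ E (cg t),
                  ((sel F fun θ => θ.1 (cg t) = γ ∧ G.vis θ.1 θ.2 t = false) ∪
                  (sel F fun θ => θ.1 (cg t) = γ ∧ G.vis θ.1 θ.2 t = true)).card ≤
                  ∑ γ ∈ E (cg t),
                  ((sel F fun θ => θ.1 (cg t) = γ ∧ G.vis θ.1 θ.2 t = false).card +
                  (sel F fun θ => θ.1 (cg t) = γ ∧ G.vis θ.1 θ.2 t = true).card) :=
                sum_le_sum fun γ _ => card_union_le _ _
              exact_mod_cast h10.trans h11
            have hsum : (F.card : ℝ) ≤ ∑ γ ∈ E (cg t),
                ((if used γ then 2 * (Ψ / a) else Ψ / a) * (N * R)) := by
              refine hcard.trans (sum_le_sum fun γ hγ => ?_)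
              have q0 := hpart γ hγ false
              have q1 := hpart γ hγ true
              refine (add_le_add q0 q1).trans (le_of_eq ?_)
              split_ifs <;> ring
            have hnum : ((E (cg t)).filter used).card ≤ k := by
              refine le_trans ?_ hSt.sc
              have h3 : (E (cg t)).filter used ⊆ S.biUnion fun t' =>
                  if (E (cg t')).card = 1 then E (cg t') else ∅ := by
                intro γ hγ
                obtain ⟨t', ht', h4⟩ := (mem_filter.1 hγ).2
                rw [mem_biUnion]
                refine ⟨t', ht', ?_⟩
                rw [h4, card_singleton, if_pos rfl]
                exact mem_singleton_self γ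
              refine (card_le_card h3).trans (card_biUnion_le.trans ?_)
              rw [card_eq_sum_ones]
              refine sum_le_sum fun t' _ => ?_
              split_ifs with h4
              · exact h4.le
              · simp
            have hval : ∑ γ ∈ E (cg t), (if used γ then 2 * (Ψ / a) else Ψ / a) ≤
                Ψ * (1 + δ) := by
              have h3 : ∀ γ ∈ E (cg t), (if used γ then 2 * (Ψ / a) else Ψ / a) =
                  Ψ / a + if used γ then Ψ / a else 0 := by
                intro γ _
                split_ifs <;> ring
              rw [sum_congr rfl h3, sum_add_distrib, sum_const, nsmul_eq_mul, ← ha,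
                ← sum_filter, sum_const, nsmul_eq_mul, mul_div_cancel₀ _ ha0.ne']
              have h4 : (((E (cg t)).filter used).card : ℝ) ≤ k := by exact_mod_cast hnum
              have h5 : (k : ℝ) ≤ D := by
                have : k ≤ D := by omega
                exact_mod_cast this
              have h6 : (H : ℝ) ≤ a := by
                rw [ha]
                exact_mod_cast hH
              have h7 : (((E (cg t)).filter used).card : ℝ) ≤ δ * a :=
                h4.trans (h5.trans (hD2.trans (mul_le_mul_of_nonneg_left h6 hδ)))
              have h8 : (((E (cg t)).filter used).card : ℝ) * (Ψ / a) ≤ δ * a * (Ψ / a) :=
                mul_le_mul_of_nonneg_right h7 (by positivity)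
              have h9 : δ * a * (Ψ / a) = Ψ * δ := by
                field_simp
              linarith
            rw [← sum_mul] at hsum
            calc (F.card : ℝ) ≤ _ := hsum
              _ ≤ (Ψ * (1 + δ)) * (N * R) := mul_le_mul_of_nonneg_right hval (by positivity)
              _ = _ := by ring
          · rcases h2 with h2 | h2
            · refine det (f γ0 (v t)) fun θ hθ => ?_
              have h3 := hmemE θ hθ (cg t)
              rw [h1, mem_singleton] at h3
              rw [hh θ hθ, h3, (mem_worlds.1 (hFw θ hθ)).2.1 t h2]
            · exact absurd hκ (h2 q f hc)

end OEth
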