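import Pool.Agent.Work.MP_609cce_lc_eth.EClass
import Pool.Agent.Work.MP_609cce_lc_eth.EGame2

/-!
# One stage: all advice strings are defeated at once
-/

namespace OEth

open ORDist Orc Finset
open Classical

theorem exists_inputs (n m : ℕ) (h : m ≤ 2 ^ n) : ∃ l : List (IX n), l.Nodup ∧ l.length = m := by
  have h1 : Fintype.card (IX n) = 2 ^ n := by
    rw [← card_sF n, ← Fintype.card_coe]
    refine Fintype.card_congr (Equiv.subtypeEquivRight fun x => mem_sF.symm)
  obtain ⟨s, _, hs⟩ := Finset.exists_subset_card_eq (s := (univ : Finset (IX n))) (n := m)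
    (by rw [card_univ, h1]; exact h)
  exact ⟨s.toList, s.nodup_toList, by rw [length_toList, hs]⟩

/-- the advice strings -/
noncomputable def advF (α : ℕ) : Finset Str := (range (α + 1)).biUnion sF

theorem mem_advF {α : ℕ} {a : Str} : a ∈ advF α ↔ a.length ≤ α := by
  unfold advF
  rw [mem_biUnion]
  constructor
  · rintro ⟨m, h1, h2⟩
    rw [mem_sF] at h2
    have := mem_range.1 h1
    omega
  · intro h
    exact ⟨a.length, mem_range.2 (by omega), mem_sF.2 rfl⟩

theorem card_advF (α : ℕ) : (advF α).card ≤ 2 ^ (α + 1) := by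
  unfold advF
  refine card_biUnion_le.trans ?_
  simp only [card_sF]
  have h : ∀ k : ℕ, ∑ u ∈ range k, 2 ^ u ≤ 2 ^ k := by
    intro k
    induction k with
    | zero => simp
    | succ k ih => rw [sum_range_succ, pow_succ]; omega
  exact h (α + 1)

theorem one_add_pow_le {δ : ℝ} {D : ℕ} (hδ : 0 ≤ δ) (h : δ * D ≤ 1) : (1 + δ) ^ D ≤ 4 := by
  have h1 : (1 + δ) ^ D ≤ Real.exp (δ * D) := by
    have h2 : 1 + δ ≤ Real.exp δ := by
      rw [add_comm]
      exact Real.add_one_le_exp δ
    calc (1 + δ) ^ D ≤ (Real.exp δ) ^ D := pow_le_pow_left₀ (by linarith) h2 D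
      _ = Real.exp (δ * D) := by rw [← Real.exp_nat_mul, mul_comm]
  have h3 : Real.exp (δ * D) ≤ Real.exp 1 := Real.exp_le_exp.2 h
  have h4 := Real.exp_one_lt_d9
  linarith

/-- **One stage.** -/
theorem stage (Mach : ℕ → OProc) {p : Par} (hp : p.WF) (M : OProc) {n : ℕ} (hn : 1 ≤ n)
    (α t : ℕ) (h1 : α + 4 ≤ 2 ^ n) (h2 : (α + 4) * t * ((α + 4) * t + 2) ≤ 2 ^ n)
    (h3 : 2 * ((α + 4) * t) ≤ 2 ^ n) :
    ∃ (p' : Par) (b : ℕ), p'.WF ∧ n < b ∧ Agr p p' n ∧
      ∀ p'' : Par, p''.WF → Agr p' p'' b → ∀ a : Str, a.length ≤ α →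
        ∃ x : Str, x.length = n ∧
          sim (orc Mach p'') M (pairStr (x, a)) t [] ≠ (p''.base x).headD false := by
  obtain ⟨l, hl, hlm⟩ := exists_inputs n (α + 4) h1
  set N : ℕ := n + t + 1 with hN
  set D : ℕ := (α + 4) * t with hD
  set H : ℕ := 2 ^ n with hH
  have hH0 : (0 : ℝ) < H := by
    rw [hH]
    positivity
  set δ : ℝ := ((D : ℝ) + 2) / H with hδ
  have hδ0 : 0 ≤ δ := by positivity
  have hD1 : ∀ a : ℕ, H ≤ a + D → 1 ≤ δ * a := by
    intro a ha
    have h4 : (H : ℝ) ≤ 2 * a := by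
      have : H ≤ 2 * a := by omega
      exact_mod_cast this
    rw [hδ, div_mul_eq_mul_div, le_div_iff₀ hH0]
    have h5 : (0 : ℝ) ≤ D := Nat.cast_nonneg D
    have h6 : (0 : ℝ) ≤ a := Nat.cast_nonneg a
    nlinarith [mul_nonneg h5 h6]
  have hD2 : (D : ℝ) ≤ δ * H := by
    rw [hδ, div_mul_cancel₀ _ hH0.ne']
    linarith
  have hpow : (1 + δ) ^ D ≤ 4 := by
    refine one_add_pow_le hδ0 ?_
    rw [hδ, div_mul_eq_mul_div, div_le_one hH0]
    have : (D + 2) * D ≤ H := by rw [mul_comm]; exact h2
    exact_mod_cast this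
  have hok := gameW_ok (N := N) Mach hp hn
  -- the lists of the runs
  let L : Str → List (IX n × QTree Str) := fun a =>
    l.map fun x => (x, tsim (qtn Mach N) M (pairStr (x.1, a)) t [])
  have hL1 : ∀ a, (L a).map Prod.fst = l := by
    intro a
    simp only [L, List.map_map]
    conv_rhs => rw [← List.map_id l]
    rfl
  have hL2 : ∀ a, dsum (L a) ≤ D := by
    intro a
    unfold dsum
    simp only [L, List.map_map]
    rw [hD, ← hlm]
    have : ∀ l : List (IX n), (l.map ((fun p : IX n × QTree Str => p.2.depth) ∘ fun x =>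
        (x, tsim (qtn Mach N) M (pairStr (x.1, a)) t []))).sum ≤ l.length * t := by
      intro l
      induction l with
      | nil => simp
      | cons x l ih =>
        rw [List.map_cons, List.sum_cons, List.length_cons]
        have h4 := run_depth (N := N) Mach M (pairStr (x.1, a)) (t := t) (by omega)
        have h5 : (l.length + 1) * t = l.length * t + t := by ring
        rw [h5]
        simp only [Function.comp_apply]
        omega
    exact this l
  -- the initial state
  have hSt : St (gameW Mach p n N) E0 H 0 E0 ∅ fun _ => none := by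
    refine ⟨fun c => Subset.refl _, (card_empty).le, fun x => Or.inl rfl, fun x => Or.inl ?_,
      fun y => Or.inl ?_, fun t => Or.inl ⟨?_, notMem_empty t⟩,
      fun t ht => absurd ht (notMem_empty t)⟩
    · exact (hok.eu x).trans (Nat.le_add_right _ _)
    · exact (hok.eo y).trans (Nat.le_add_right _ _)
    · exact hok.eg t
  -- the numbers
  set Θ : ℝ := mass (E0 : WC n N → Finset Str) ∅ * 2 ^ Fintype.card (IP n N) with hΘ
  have hbad : ∀ a, (((worlds (gameW Mach p n N) E0 ∅ (fun _ => false) fun _ => none).filter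
      (Right (gameW Mach p n N) (L a))).card : ℝ) ≤ Θ * ((1 / 2) ^ (α + 4) * 4) := by
    intro a
    have h4 := game_bound hok hδ0 hD1 hD2 (L a) (by rw [hL1]; exact hl) 0 E0 ∅
      (fun _ => false) (fun _ => none) hSt (by have := hL2 a; omega)
    refine h4.trans ?_
    rw [hL1]
    have h5 : pot (E0 : WC n N → Finset Str) l = (1 / 2) ^ (α + 4) := by
      have : ∀ l : List (IX n), pot (E0 : WC n N → Finset Str) l = (1 / 2) ^ l.length := by
        intro l
        induction l with
        | nil => simp [pot]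
        | cons x l ih =>
          unfold pot at ih ⊢
          rw [List.map_cons, List.prod_cons, ih, List.length_cons, pow_succ, hok.eb x]
          norm_num
          ring
      rw [this, hlm]
    rw [h5]
    have h6 : (1 + δ) ^ dsum (L a) ≤ 4 :=
      (pow_le_pow_right₀ (by linarith) (hL2 a)).trans hpow
    calc mass (E0 : WC n N → Finset Str) ∅ * (1 / 2) ^ (α + 4) * 2 ^ Fintype.card (IP n N) *
          (1 + δ) ^ dsum (L a) = Θ * (1 / 2) ^ (α + 4) * (1 + δ) ^ dsum (L a) := by
            rw [hΘ]; ring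
      _ ≤ Θ * (1 / 2) ^ (α + 4) * 4 := by
          refine mul_le_mul_of_nonneg_left h6 ?_
          have := mass_nonneg (E0 : WC n N → Finset Str) ∅
          positivity
      _ = _ := by ring
  have htot : ((worlds (gameW Mach p n N) E0 ∅ (fun _ => false) fun _ => none).card : ℝ) = Θ := by
    have h4 : worlds (gameW Mach p n N) E0 ∅ (fun _ => false) (fun _ => none) =
        (Fintype.piFinset E0) ×ˢ univ := by
      ext θ
      rw [mem_worlds, mem_product, Fintype.mem_piFinset]
      exact ⟨fun h => ⟨h.1, mem_univ _⟩, fun h => ⟨h.1, fun t ht => absurd ht (notMem_empty t),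
        fun q a h' => absurd h' (fun h'' => Option.noConfusion rfl (heq_of_eq h''))⟩⟩
    rw [h4, card_product, Fintype.card_piFinset, card_univ, Fintype.card_fun, Fintype.card_bool,
      hΘ, Nat.cast_mul, Nat.cast_prod, Nat.cast_pow, Nat.cast_ofNat, mass, card_empty, pow_zero,
      div_one]
  have hΘ0 : 0 < Θ := by
    rw [hΘ]
    unfold mass
    have h4 : 0 < ∏ c : WC n N, ((E0 c).card : ℝ) := by
      refine prod_pos fun c _ => ?_
      refine Nat.cast_pos.2 ?_
      show 0 < (E0 c).card
      · rcases c with (x | x) | (y | t)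
        · show 0 < ({[false], [true]} : Finset Str).card
          simp
        · show 0 < (sF n).card
          rw [card_sF]; positivity
        · show 0 < (sF y.1.length).card
          rw [card_sF]; positivity
        · show 0 < (sF (maxlen t.1 + 1)).card
          rw [card_sF]; positivity
    exact mul_pos (div_pos h4 (by positivity)) (by positivity)
  -- a world in which all advice strings fail
  obtain ⟨θ, hθ1, hθ2⟩ : ∃ θ ∈ worlds (gameW Mach p n N) E0 ∅ (fun _ => false) (fun _ => none),
      ∀ a ∈ advF α, ¬ Right (gameW Mach p n N) (L a) θ := by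
    by_contra hcon
    have h4 : worlds (gameW Mach p n N) E0 ∅ (fun _ => false) (fun _ => none) ⊆
        (advF α).biUnion fun a =>
          (worlds (gameW Mach p n N) E0 ∅ (fun _ => false) fun _ => none).filter
            (Right (gameW Mach p n N) (L a)) := by
      intro θ hθ
      by_contra hno
      exact hcon ⟨θ, hθ, fun a ha hR => hno (mem_biUnion.2 ⟨a, ha, mem_filter.2 ⟨hθ, hR⟩⟩)⟩
    have h5 : ((worlds (gameW Mach p n N) E0 ∅ (fun _ => false) fun _ => none).card : ℝ) ≤
        ∑ a ∈ advF α, Θ * ((1 / 2) ^ (α + 4) * 4) := by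
      have h6 : ((worlds (gameW Mach p n N) E0 ∅ (fun _ => false) fun _ => none).card : ℝ) ≤
          ∑ a ∈ advF α, (((worlds (gameW Mach p n N) E0 ∅ (fun _ => false)
            fun _ => none).filter (Right (gameW Mach p n N) (L a))).card : ℝ) := by
        exact_mod_cast (card_le_card h4).trans card_biUnion_le
      exact h6.trans (sum_le_sum fun a _ => hbad a)
    rw [sum_const, nsmul_eq_mul, htot] at h5
    have h6 : ((advF α).card : ℝ) ≤ 2 ^ (α + 1) := by exact_mod_cast card_advF α
    have h7 : ((advF α).card : ℝ) * (Θ * ((1 / 2) ^ (α + 4) * 4)) ≤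
        2 ^ (α + 1) * (Θ * ((1 / 2) ^ (α + 4) * 4)) :=
      mul_le_mul_of_nonneg_right h6 (by positivity)
    have h8 : (2 : ℝ) ^ (α + 1) * (Θ * ((1 / 2) ^ (α + 4) * 4)) = Θ / 2 := by
      rw [pow_add (2 : ℝ) α 1, pow_add (1 / 2 : ℝ) α 4]
      have h9 : (2 : ℝ) ^ α * (1 / 2) ^ α = 1 := by
        rw [← mul_pow]
        norm_num
      calc (2 : ℝ) ^ α * 2 ^ 1 * (Θ * ((1 / 2) ^ α * (1 / 2) ^ 4 * 4)) =
            (2 ^ α * (1 / 2) ^ α) * (Θ * (2 ^ 1 * (1 / 2) ^ 4 * 4)) := by ring
        _ = Θ / 2 := by rw [h9]; ring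
    linarith
  -- the new parameters
  have hη : ∀ c, θ.1 c ∈ E0 c := (mem_worlds.1 hθ1).1
  refine ⟨par p θ.1 θ.2, N + 1, par_wf hp hη, by omega, par_agr, fun p'' hp'' hag a ha => ?_⟩
  have h4 := hθ2 a (mem_advF.2 ha)
  obtain ⟨pr, hpr, hne⟩ : ∃ pr ∈ L a, ¬ (pr.2.eval ((gameW Mach p n N).B θ.1 θ.2) =
      (θ.1 (cb pr.1)).headD false) := by
    by_contra hno
    exact h4 fun pr hpr => by
      by_contra hne
      exact hno ⟨pr, hpr, hne⟩
  obtain ⟨x, hx, rfl⟩ := List.mem_map.1 hpr
  refine ⟨x.1, x.2, fun he => hne ?_⟩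
  simp only
  rw [run_eval hp hη θ.2 M (pairStr (x.1, a)) (by omega : t ≤ N)]
  have h5 : sim (orc Mach (par p θ.1 θ.2)) M (pairStr (x.1, a)) t [] =
      sim (orc Mach p'') M (pairStr (x.1, a)) t [] :=
    sim_congr M _ t [] fun q hq => orc_local (par_wf hp hη) hp'' hag (by omega)
  rw [h5, he, ← hag.base x.1 (by have := x.2; omega), par_base]
  have h6 : θ.1 (cb x) ∈ ({[false], [true]} : Finset Str) := hη (cb x)
  rw [mem_insert, mem_singleton] at h6
  rcases h6 with h6 | h6 <;> rw [h6] <;> rfl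

end OEth
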