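import Pool.Agent.Work.MP_609cce_lc_eth.EStage

/-!
# The limit of the stages
-/

namespace OEth

open ORDist

theorem numbers {n : ℕ} (hn : 25 ≤ n) :
    2 ^ (n / 5) + 4 ≤ 2 ^ n ∧
    (2 ^ (n / 5) + 4) * 2 ^ (n / 5) * ((2 ^ (n / 5) + 4) * 2 ^ (n / 5) + 2) ≤ 2 ^ n ∧
    2 * ((2 ^ (n / 5) + 4) * 2 ^ (n / 5)) ≤ 2 ^ n := by
  have h1 : 2 ^ 5 ≤ 2 ^ (n / 5) := Nat.pow_le_pow_right (by norm_num) (by omega)
  have h2 : (2 ^ (n / 5)) ^ 5 ≤ 2 ^ n := by
    rw [← pow_mul]
    exact Nat.pow_le_pow_right (by norm_num) (by omega)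
  generalize 2 ^ (n / 5) = u at h1 h2 ⊢
  have h32 : 32 ≤ u := by simpa using h1
  have h3 : (u + 4) * u ≤ 2 * u ^ 2 := by nlinarith
  have h4 : 32 ≤ u ^ 2 := by nlinarith
  have h5 : 32 * u ^ 4 ≤ u ^ 5 := by
    rw [pow_succ u 4, mul_comm]
    exact Nat.mul_le_mul_left _ h32
  have h6 : u ^ 2 ≤ u ^ 4 := Nat.pow_le_pow_right (by omega) (by norm_num)
  have h7 : u ≤ u ^ 4 := by
    calc u = u ^ 1 := (pow_one u).symm
      _ ≤ u ^ 4 := Nat.pow_le_pow_right (by omega) (by norm_num)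
  refine ⟨?_, ?_, ?_⟩
  · omega
  · have h8 : (u + 4) * u * ((u + 4) * u + 2) ≤ 2 * u ^ 2 * (2 * u ^ 2 + 2) :=
      Nat.mul_le_mul h3 (by omega)
    have h9 : 2 * u ^ 2 * (2 * u ^ 2 + 2) = 4 * u ^ 4 + 4 * u ^ 2 := by ring
    omega
  · omega

/-- the final parameters -/
theorem exists_final (Mach : ℕ → OProc) {MM : Set OProc} (hMM : MM.Countable) :
    ∃ p : Par, p.WF ∧ ∀ M ∈ MM, ∀ n0, ∃ n ≥ n0, ∀ a : Str, a.length ≤ 2 ^ (n / 5) →
      ∃ x : Str, x.length = n ∧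
        sim (orc Mach p) M (pairStr (x, a)) (2 ^ (n / 5)) [] ≠ (p.base x).headD false := by
  classical
  -- the initial parameters
  let p0 : Par := ⟨fun x => List.replicate (x.length + 1) false,
    fun T => List.replicate (maxlen T + 1) false, fun _ => false,
    fun y => List.replicate y.length false⟩
  have hp0 : p0.WF := ⟨fun x => List.length_replicate, fun T => List.length_replicate,
    fun y => List.length_replicate⟩
  have hcM : Countable MM := hMM.to_subtype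
  rcases isEmpty_or_nonempty MM with hE | hne
  · exact ⟨p0, hp0, fun M hM => (hE.false ⟨M, hM⟩).elim⟩
  obtain ⟨E, hE⟩ := exists_surjective_nat (MM × ℕ)
  let S := {z : Par × ℕ // z.1.WF}
  have hstep : ∀ (i : ℕ) (z : S), ∃ z' : S, z.1.2 < z'.1.2 ∧ Agr z.1.1 z'.1.1 z.1.2 ∧
      ∃ n ≥ (E i).2, ∀ p'' : Par, p''.WF → Agr z'.1.1 p'' z'.1.2 →
        ∀ a : Str, a.length ≤ 2 ^ (n / 5) → ∃ x : Str, x.length = n ∧
          sim (orc Mach p'') (E i).1.1 (pairStr (x, a)) (2 ^ (n / 5)) [] ≠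
            (p''.base x).headD false := by
    intro i z
    set n : ℕ := z.1.2 + (E i).2 + 25 with hn
    obtain ⟨h1, h2, h3⟩ := numbers (n := n) (by omega)
    obtain ⟨p', b, hp', hb, hag, hbad⟩ := stage Mach z.2 (E i).1.1 (n := n) (by omega)
      (2 ^ (n / 5)) (2 ^ (n / 5)) h1 h2 h3
    exact ⟨⟨(p', b), hp'⟩, by show z.1.2 < b; omega, hag.mono (by omega), n, by omega, hbad⟩
  choose next hn1 hn2 hn3 using hstep
  let z0 : S := ⟨(p0, 0), hp0⟩
  let s : ℕ → S := fun i => Nat.rec z0 (fun i z => next i z) i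
  have hs : ∀ i, s (i + 1) = next i (s i) := fun i => rfl
  have hb : ∀ i, (s i).1.2 < (s (i + 1)).1.2 := fun i => by rw [hs]; exact hn1 i (s i)
  have hbm : StrictMono fun i => (s i).1.2 := strictMono_nat_of_lt_succ hb
  have hbi : ∀ i, i ≤ (s i).1.2 := fun i => hbm.le_apply
  have hag : ∀ i j, i ≤ j → Agr (s i).1.1 (s j).1.1 (s i).1.2 := by
    intro i j hij
    induction j, hij using Nat.le_induction with
    | base => exact Agr.refl _ _
    | succ j hij ih =>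
      refine ih.trans ?_
      rw [hs]
      exact (hn2 j (s j)).mono (hbm.monotone hij)
  have hag2 : ∀ i j k : ℕ, k ≤ (s i).1.2 → k ≤ (s j).1.2 → Agr (s i).1.1 (s j).1.1 k := by
    intro i j k h1 h2
    rcases le_total i j with h | h
    · exact (hag i j h).mono h1
    · exact ((hag j i h).mono h2).symm
  let p : Par := ⟨fun x => (s (x.length + 1)).1.1.base x, fun T => (s (maxlen T + 1)).1.1.g T,
    fun γ => (s (γ.length + 1)).1.1.pad γ, fun y => (s (y.length + 1)).1.1.om y⟩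
  have hp : ∀ i, Agr (s i).1.1 p (s i).1.2 := by
    intro i
    refine ⟨fun w hw => ?_, fun T hT => ?_, fun γ hγ => ?_, fun y hy => ?_⟩
    · exact (hag2 i (w.length + 1) (w.length + 1) (by omega) (hbi _)).base w (by omega)
    · exact (hag2 i (maxlen T + 1) (maxlen T + 1) (by omega) (hbi _)).g T (by omega)
    · exact (hag2 i (γ.length + 1) (γ.length + 1) (by omega) (hbi _)).pad γ (by omega)
    · exact (hag2 i (y.length + 1) (y.length + 1) (by omega) (hbi _)).om y (by omega)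
  have hwf : p.WF := ⟨fun x => (s (x.length + 1)).2.base_len x,
    fun T => (s (maxlen T + 1)).2.g_len T, fun y => (s (y.length + 1)).2.om_len y⟩
  refine ⟨p, hwf, fun M hM n0 => ?_⟩
  obtain ⟨i, hi⟩ := hE (⟨M, hM⟩, n0)
  obtain ⟨n, hn, hbad⟩ := hn3 i (s i)
  refine ⟨n, by rw [hi] at hn; exact hn, ?_⟩
  have h1 := hbad p hwf (by rw [← hs]; exact hp (i + 1))
  rw [hi] at h1
  exact h1

end OEth
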