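import Pool.Agent.Work.MP_609cce_lc_eth.ELoc
import Pool.Agent.Work.MP_609cce_lc.OrcPT
import Pool.Agent.Work.MP_609cce_lc.OrcHard
import Pool.Agent.Work.MP_609cce_lc.OrcDist
import Pool.Agent.Work.MP_a17a63_lc.SHelper

/-!
# The polynomial time facts: the distillation, the complete language, the test language
-/

namespace OEth

open ORDist PTime

variable {Mach : ℕ → OProc}

/-! ### the distillation -/

theorem answers_distM {p : Par} (hp : p.WF) (T : List Str) : ∀ j : ℕ,
    j ≤ (pairStr (nm p (lang Mach p) T, [])).length →
    answers (orc Mach p) distM (seqBits T) j = (pairStr (nm p (lang Mach p) T, [])).take j := by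
  intro j
  induction j with
  | zero => intro _; simp [answers]
  | succ j ih =>
    intro hj
    have h1 := distM_ask (seqBits T) (nm p (lang Mach p) T) (j := j) (by omega)
    have h2 := orc_hash (Mach := Mach) hp j T
    rw [answers, ih (by omega), h1]
    have h3 : orc Mach p (false :: true :: un j (seqBits T)) =
        (pairStr (nm p (lang Mach p) T, [])).getD j false := h2
    rw [h3, List.getD_eq_getElem _ _ (by omega), List.take_append_getElem]

/-- the distillation is computed in polynomial time with the oracle -/
theorem dist_polyTime {p : Par} (hp : p.WF) :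
    PolyTimeO (orc Mach p) seqBits (dist Mach p) := by
  refine ⟨distM, polyTime_of_pt pt_distM, 2 * Polynomial.X + 5, fun T => ?_⟩
  have hl : (pairStr (nm p (lang Mach p) T, [])).length = 2 * (maxlen T + 2) + 1 := by
    have h1 := dist_length (Mach := Mach) hp T
    unfold dist at h1
    rw [List.length_cons] at h1
    rw [pairStr_length']
    simp only [List.length_nil]
    omega
  have hm := maxlen_le_seqBits T
  refine ⟨(pairStr (nm p (lang Mach p) T, [])).length, ?_, ?_, ?_⟩
  · simp only [Polynomial.eval_add, Polynomial.eval_mul, Polynomial.eval_X,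
      Polynomial.eval_ofNat]
    omega
  · intro j hj
    rw [answers_distM hp T j hj.le, distM_ask _ _ hj]
  · rw [answers_distM hp T _ le_rfl, List.take_length, distM_end]
    rfl

/-! ### the complete language -/

theorem hard (hMach : ∀ M : OProc, PolyTime pairStr actStr M → ∃ e, Mach e = M)
    {p : Par} (hp : p.WF) {L : Set Str} (hL : InNPO (orc Mach p) L) :
    ∃ f : Str → Str, PolyTime (fun x => x) (fun x => x) f ∧
      ∀ x, x ∈ L ↔ lang Mach p (f x) = true := by
  obtain ⟨V, m, ⟨M, hM, p2, hp2⟩, hV⟩ := hL
  obtain ⟨e, he⟩ := hMach M hM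
  obtain ⟨s, hs⟩ := exists_act_bound (pt_of_polyTime hM)
  let N0 : Polynomial ℕ := 2 * Polynomial.X + m + 1
  let tP : Polynomial ℕ := p2.comp N0 * s.comp (N0 + p2.comp N0)
  let f : Str → Str := fun x => false :: rK (m.eval x.length) (tP.eval x.length) e x
  have hf : PT f := by
    have hl : PT (fun x : Str => x.length) := PT.id.length
    exact (PT.const false).cons (Orc_pt_un (PT.polyEval m hl) (Orc_pt_un (PT.polyEval tP hl)
      (Orc_pt_un (PT.const e) PT.id)))
  refine ⟨f, PT.polyTime_raw (ea := fun x => x) hf fun _ => rfl, fun x => ?_⟩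
  have key : ∀ w : Str, w.length ≤ m.eval x.length →
      sim (orc Mach p) (Mach e) (pairStr (x, w)) (tP.eval x.length) [] = V (x, w) := by
    intro w hw
    obtain ⟨k, hk, h1, h2⟩ := hp2 (x, w)
    have hN : (pairStr (x, w)).length ≤ N0.eval x.length := by
      rw [pairStr_length']
      simp only [N0, Polynomial.eval_add, Polynomial.eval_mul, Polynomial.eval_X,
        Polynomial.eval_ofNat, Polynomial.eval_one]
      omega
    have hk2 : k ≤ p2.eval (N0.eval x.length) := hk.trans (eval_mono p2 hN)
    have hlen : ∀ j, (answers (orc Mach p) M (pairStr (x, w)) j).length = j := by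
      intro j
      induction j with
      | zero => rfl
      | succ j ih => rw [answers, List.length_append, ih]; rfl
    have hB : ∀ j < k, (M (pairStr (x, w),
        answers (orc Mach p) M (pairStr (x, w)) j)).2.length + 1 ≤
        s.eval (N0.eval x.length + p2.eval (N0.eval x.length)) := by
      intro j hj
      refine (hs _ _).trans (eval_mono s ?_)
      rw [hlen]
      omega
    have h3 := sim_of_run h1 h2 hB k 0 (by omega) (tP.eval x.length) (by
      simp only [tP, Polynomial.eval_mul, Polynomial.eval_comp, Polynomial.eval_add]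
      exact Nat.mul_le_mul_right _ hk2)
    rw [he]
    refine h3.trans ?_
    cases hv : V (x, w) <;> simp [hv]
  rw [hV x]
  show _ ↔ lang Mach p (false :: rK (m.eval x.length) (tP.eval x.length) e x) = true
  rw [lang_false hp]
  constructor
  · rintro ⟨w, hw, hv⟩
    refine ⟨w, ?_, (orc_kQ hp _ _).2 ⟨_, _, _, _, rfl, hw, ?_⟩⟩
    · rw [rK_length]
      omega
    · rw [key w hw]
      exact hv
  · rintro ⟨w, _, hw⟩
    obtain ⟨s', t', e', x', h1, h2, h3⟩ := (orc_kQ hp _ _).1 hw
    obtain ⟨h4, h5, h6, h7⟩ := rK_inj h1
    subst h4 h5 h6 h7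
    exact ⟨w, h2, by rw [← key w h2]; exact h3⟩

/-- the complete language is in NP relative to the oracle -/
theorem lang_inNPO {p : Par} (hp : p.WF) :
    InNPO (orc Mach p) {x | lang Mach p x = true} := by
  have hg : PT (fun z : Str × Str => !z.1.isEmpty) := PT.fst.isEmpty.not
  have hf : PT (fun z : Str × Str => true :: (!z.1.headD false) :: pairStr (z.1.tail, z.2)) :=
    (PT.const true).cons ((PT.fst.headD (PT.const false)).not.cons
      (pt_pairStr.comp (PT.fst.tail.pair PT.snd)))
  refine ⟨fun z => (!z.1.isEmpty) && orc Mach p (true :: (!z.1.headD false) ::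
    pairStr (z.1.tail, z.2)), Polynomial.X, polyTimeO_one hg hf, fun x => ?_⟩
  rw [Polynomial.eval_X, Set.mem_ofPred_eq]
  cases x with
  | nil => simp [lang_nil]
  | cons b x =>
    cases b with
    | true =>
      rw [lang_true]
      constructor
      · intro h
        have h2 : orc Mach p (wQ x (p.om x)) = true := (orc_wQ hp x _).2 ⟨h, rfl⟩
        exact ⟨p.om x, by rw [List.length_cons, hp.om_len]; omega, by simpa [wQ] using h2⟩
      · rintro ⟨w, h1, h2⟩
        have h3 : orc Mach p (wQ x w) = true := by simpa [wQ] using h2
        exact ((orc_wQ hp x w).1 h3).1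
    | false =>
      rw [lang_false hp]
      constructor
      · rintro ⟨w, h1, h2⟩
        exact ⟨w, by rw [List.length_cons]; omega, by simpa [kQ] using h2⟩
      · rintro ⟨w, h1, h2⟩
        have h3 : orc Mach p (kQ x w) = true := by simpa [kQ] using h2
        refine ⟨w, ?_, h3⟩
        obtain ⟨s, t, e, x', rfl, h4, _⟩ := (orc_kQ hp x w).1 h3
        rw [rK_length]
        omega

/-! ### the test language -/

/-- the test language: the first bit of the hidden string -/
def test (p : Par) : Set Str := {x | (p.base x).headD false = true}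

theorem test_aux {p : Par} (hp : p.WF) (σ : Bool) :
    InUPO (orc Mach p) {x | (p.base x).headD false = σ} := by
  have hg : PT (fun z : Str × Str => bif σ then z.2.headD false else !z.2.headD false) :=
    PT.cond (PT.const σ) (PT.snd.headD (PT.const false)) (PT.snd.headD (PT.const false)).not
  have hf : PT (fun z : Str × Str => bQ z.1 z.2) :=
    (PT.const false).cons ((PT.const false).cons pt_pairStr)
  refine ⟨fun z => (bif σ then z.2.headD false else !z.2.headD false) && orc Mach p (bQ z.1 z.2),
    Polynomial.X + 1, polyTimeO_one hg hf, fun x => ?_, fun x y y' _ _ h h' => ?_⟩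
  · rw [Set.mem_ofPred_eq]
    constructor
    · intro h
      refine ⟨p.base x, ?_, ?_⟩
      · rw [hp.base_len]
        simp
      · rw [Bool.and_eq_true]
        refine ⟨?_, (orc_bQ hp _ _).2 rfl⟩
        simp only [h]
        cases σ <;> rfl
    · rintro ⟨w, _, h⟩
      rw [Bool.and_eq_true] at h
      obtain ⟨h1, h2⟩ := h
      rw [orc_bQ hp] at h2
      simp only at h2
      rw [← h2]
      cases σ
      · simpa using h1
      · simpa using h1
  · rw [Bool.and_eq_true] at h h'
    have h1 := (orc_bQ hp _ _).1 h.2
    have h2 := (orc_bQ hp _ _).1 h'.2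
    simp only at h1 h2
    rw [h1, h2]

theorem test_inUPO {p : Par} (hp : p.WF) : InUPO (orc Mach p) (test p) := test_aux hp true

theorem test_compl_inUPO {p : Par} (hp : p.WF) : InUPO (orc Mach p) (test p)ᶜ := by
  have h : (test p)ᶜ = {x | (p.base x).headD false = false} := by
    ext x
    rw [test, Set.mem_compl_iff, Set.mem_ofPred_eq, Set.mem_ofPred_eq, Bool.not_eq_true]
  rw [h]
  exact test_aux hp false

end OEth
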