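import Mathlib.Computability.PartrecCode
import Pool.Agent.Work.MP_609cce_lc.OrcData

/-!
# Runs with a bounded total length of the queries
-/

namespace ORDist

/-- with the oracle `A` the procedure `M` stops on the input `x` with the output `v`, after queries
of total cost at most `t`, where a query `q` costs `|q| + 1` -/
def RunsTo (A : List Bool → Bool) (M : OProc) (x : List Bool) (t : ℕ) (v : Bool) : Prop :=
  ∃ k : ℕ, (∀ j < k, (M (x, answers A M x j)).1 = true) ∧
    ∑ j ∈ Finset.range k, ((M (x, answers A M x j)).2.length + 1) ≤ t ∧
    M (x, answers A M x k) = (false, [v])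

end ORDist

namespace OEth

open ORDist Finset

theorem sim_of_runsTo {A : Str → Bool} {M : OProc} {x : Str} {t : ℕ} {v : Bool}
    (h : RunsTo A M x t v) : sim A M x t [] = v := by
  obtain ⟨k, h1, h2, h3⟩ := h
  have key : ∀ j i, i + j = k → ∀ s, ∑ m ∈ range j, ((M (x, answers A M x (i + m))).2.length + 1)
      ≤ s → sim A M x s (answers A M x i) = v := by
    intro j
    induction j with
    | zero =>
      intro i hi s _
      have e : i = k := by omega
      subst e
      rw [sim.eq_def, h3]
      cases v <;> simp
    | succ j ih =>
      intro i hi s hs
      rw [sum_range_succ'] at hs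
      simp only [add_zero] at hs
      rw [sim.eq_def, if_pos (h1 i (by omega)), dif_pos (by omega)]
      refine ih (i + 1) (by omega) _ ?_
      have e : ∑ m ∈ range j, ((M (x, answers A M x (i + 1 + m))).2.length + 1) =
          ∑ m ∈ range j, ((M (x, answers A M x (i + (m + 1)))).2.length + 1) :=
        sum_congr rfl fun m _ => by rw [show i + 1 + m = i + (m + 1) by omega]
      omega
  have h4 := key k 0 (by omega) t (by simpa using h2)
  simpa [answers] using h4

theorem countable_computable {α σ : Type} [Primcodable α] [Primcodable σ] :
    Set.Countable {f : α → σ | Computable f} := by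
  have h : ∀ f : {f : α → σ // Computable f}, ∃ c : Nat.Partrec.Code, c.eval =
      fun n => Part.bind (Encodable.decode (α := α) n) fun a => Part.map Encodable.encode
        ((f.1 : α →. σ) a) := fun f =>
    Nat.Partrec.Code.exists_code.1 f.2
  choose c hc using h
  have hinj : Function.Injective c := by
    intro f g hfg
    have h1 := (hc f).symm.trans ((congrArg Nat.Partrec.Code.eval hfg).trans (hc g))
    apply Subtype.ext
    funext a
    have h2 := congrFun h1 (Encodable.encode a)
    simp only [Encodable.encodek, Part.coe_some, Part.bind_some, PFun.coe_val,
      Part.map_some, Part.some_inj] at h2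
    exact Encodable.encode_injective h2
  have h2 : Countable {f : α → σ // Computable f} := hinj.countable
  exact Set.countable_coe_iff.1 h2

end OEth
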