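import Pool.Agent.Work.MP_609cce_lc_eth.ELimit
import Pool.Agent.Work.MP_609cce_lc_eth.EPT
import Pool.Agent.Work.MP_609cce_lc_eth.ERuns
import Pool.Agent.Work.MP_a81742_lc_or.TwoMain

/-!
# Assembly
-/

namespace OEth

open ORDist PTime Finset

theorem poly_le_two_pow (P : Polynomial ℕ) : ∃ n₁, ∀ n ≥ n₁, P.eval n ≤ 2 ^ n := by
  have h : (fun n : ℕ => ((P.eval n : ℕ) : ℝ)) =o[Filter.atTop] fun n : ℕ => (2 : ℝ) ^ n := by
    induction P using Polynomial.induction_on' with
    | add p q hp hq =>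
      have := hp.add hq
      refine this.congr_left fun n => ?_
      simp
    | monomial k a =>
      have := (isLittleO_pow_const_const_pow_of_one_lt (R := ℝ) k
        (one_lt_two : (1 : ℝ) < 2)).const_mul_left (a : ℝ)
      refine this.congr_left fun n => ?_
      simp
  have h2 := h.bound (show (0 : ℝ) < 1 by norm_num)
  obtain ⟨N, hN⟩ := Filter.eventually_atTop.1 h2
  refine ⟨N, fun n hn => ?_⟩
  have h3 := hN n hn
  rw [Real.norm_of_nonneg (by positivity), Real.norm_of_nonneg (by positivity), one_mul] at h3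
  exact_mod_cast h3

theorem poly_le_two_pow_div (P : Polynomial ℕ) : ∃ n₁, ∀ n ≥ n₁, P.eval n ≤ 2 ^ (n / 5) := by
  obtain ⟨m₁, h⟩ := poly_le_two_pow (P.comp (5 * Polynomial.X + 4))
  refine ⟨5 * m₁, fun n hn => ?_⟩
  have h1 := h (n / 5) (by omega)
  rw [Polynomial.eval_comp] at h1
  refine (eval_mono P ?_).trans h1
  simp only [Polynomial.eval_add, Polynomial.eval_mul, Polynomial.eval_X, Polynomial.eval_ofNat]
  omega

/-- no polynomial size circuits -/
theorem test_not_inPPolyO {A : Str → Bool} {base : Str → Str}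
    (h : ∀ M : OProc, PT M → ∀ n₀ : ℕ, ∃ n ≥ n₀, ∀ a : Str, a.length ≤ 2 ^ (n / 5) →
      ∃ x : Str, x.length = n ∧
        sim A M (pairStr (x, a)) (2 ^ (n / 5)) [] ≠ (base x).headD false) :
    ¬ InPPolyO A {x | (base x).headD false = true} := by
  rintro ⟨V, adv, r, ⟨M, hM, p2, hp2⟩, hadv, hV⟩
  obtain ⟨s, hs⟩ := exists_act_bound (pt_of_polyTime hM)
  let N0 : Polynomial ℕ := 2 * Polynomial.X + r + 1
  let tP : Polynomial ℕ := p2.comp N0 * s.comp (N0 + p2.comp N0)
  obtain ⟨n₁, hn₁⟩ := poly_le_two_pow_div r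
  obtain ⟨n₂, hn₂⟩ := poly_le_two_pow_div tP
  obtain ⟨n, hn, hbad⟩ := h M (pt_of_polyTime hM) (n₁ + n₂)
  obtain ⟨x, hx, hne⟩ := hbad (adv n) ((hadv n).trans (hn₁ n (by omega)))
  apply hne
  obtain ⟨k, hk, h1, h2⟩ := hp2 (x, adv n)
  have hN : (pairStr (x, adv n)).length ≤ N0.eval n := by
    rw [pairStr_length']
    have := hadv n
    simp only [N0, Polynomial.eval_add, Polynomial.eval_mul, Polynomial.eval_X,
      Polynomial.eval_ofNat, Polynomial.eval_one]
    omega
  have hk2 : k ≤ p2.eval (N0.eval n) := hk.trans (eval_mono p2 hN)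
  have hlen : ∀ j, (answers A M (pairStr (x, adv n)) j).length = j := by
    intro j
    induction j with
    | zero => rfl
    | succ j ih => rw [answers, List.length_append, ih]; rfl
  have hB : ∀ j < k, (M (pairStr (x, adv n),
      answers A M (pairStr (x, adv n)) j)).2.length + 1 ≤
      s.eval (N0.eval n + p2.eval (N0.eval n)) := by
    intro j hj
    refine (hs _ _).trans (eval_mono s ?_)
    rw [hlen]
    omega
  have h3 := sim_of_run h1 h2 hB k 0 (by omega) (2 ^ (n / 5)) (by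
    refine le_trans ?_ (hn₂ n (by omega))
    simp only [tP, Polynomial.eval_mul, Polynomial.eval_comp, Polynomial.eval_add]
    exact Nat.mul_le_mul_right _ hk2)
  refine h3.trans ?_
  have h4 := hV x
  rw [hx] at h4
  have h5 : (base x).headD false = V (x, adv n) := by
    rw [Bool.eq_iff_iff]
    exact h4
  rw [h5]
  cases hv : V (x, adv n) <;> simp [hv]

/-- **Main theorem.** -/
theorem eth_main : ∃ A : Str → Bool,
    (∃ L : Set Str, InUPO A L ∧ InUPO A Lᶜ ∧ ¬ InPPolyO A L ∧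
      ∀ M : OProc, Computable M → ∀ n₀ : ℕ, ∃ n ≥ n₀, ∀ a : Str, a.length ≤ 2 ^ (n / 5) →
        ∃ x : Str, x.length = n ∧
          ¬ ∃ v : Bool, RunsTo A M (pairStr (x, a)) (2 ^ (n / 5)) v ∧ (x ∈ L ↔ v = true)) ∧
    ∃ R : Set Str, InNPO A R ∧
      (∀ L, InNPO A L → ∃ f : Str → Str, PolyTime (fun x => x) (fun x => x) f ∧
        ∀ x, x ∈ L ↔ f x ∈ R) ∧
      ∃ D : List Str → Str, PolyTimeO A seqBits D ∧
        (∀ (n : ℕ) (xs : List Str), (∀ x ∈ xs, x.length ≤ n) → (D xs).length ≤ n + 3) ∧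
        ∀ xs, D xs ∈ R ↔ ∃ x ∈ xs, x ∈ R := by
  obtain ⟨Mach, hMach⟩ := exists_enum
  obtain ⟨p, hp, hfin⟩ := exists_final Mach
    (MM := {M : OProc | PT M} ∪ {M : OProc | Computable M})
    ((countable_PT (α := Str × Str) (β := Bool × Str)).union countable_computable)
  refine ⟨orc Mach p, ⟨test p, test_inUPO hp, test_compl_inUPO hp,
    test_not_inPPolyO (base := p.base) fun M hM => hfin M (Or.inl hM), fun M hM n₀ => ?_⟩,
    {x | lang Mach p x = true}, lang_inNPO hp, fun L hL => hard hMach hp hL,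
    dist Mach p, dist_polyTime hp, fun n xs h => ?_, fun xs => dist_correct xs⟩
  · obtain ⟨n, hn, hbad⟩ := hfin M (Or.inr hM) n₀
    refine ⟨n, hn, fun a ha => ?_⟩
    obtain ⟨x, hx, hne⟩ := hbad a ha
    refine ⟨x, hx, ?_⟩
    rintro ⟨v, hv, hv2⟩
    apply hne
    rw [sim_of_runsTo hv, Bool.eq_iff_iff]
    exact hv2.symm
  · rw [dist_length hp]
    have := maxlen_le h
    omega

end OEth
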