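import Pool.Agent.Work.MP_609cce_lc.OrcSim

/-!
# The oracles: hidden strings, names with pads
-/

namespace OEth

open ORDist

/-- the parameters of an oracle -/
structure Par where
  /-- the hidden string of a string -/
  base : Str → Str
  /-- the name of a sequence without its first bit -/
  g : List Str → Str
  /-- the pads -/
  pad : Str → Bool
  /-- the witnesses of the names -/
  om : Str → Str

/-- well-formed parameters -/
structure Par.WF (p : Par) : Prop where
  base_len : ∀ x, (p.base x).length = x.length + 1
  g_len : ∀ T, (p.g T).length = maxlen T + 1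
  om_len : ∀ y, (p.om y).length = y.length

/-- is `w` the hidden string of `x` -/
def bQ (x w : Str) : Str := false :: false :: pairStr (x, w)

/-- the status of a sequence, `R` being the (indicator of the) complete language -/
noncomputable def st (R : Str → Bool) (T : List Str) : Bool :=
  @decide (∃ x ∈ T, R x = true) (Classical.propDecidable _)

/-- the name of a sequence -/
noncomputable def nm (p : Par) (R : Str → Bool) (T : List Str) : Str :=
  xor (st R T) (p.pad (p.g T)) :: p.g T

/-- `y` is a yes-name -/
def yesN (p : Par) (y : Str) : Prop := ∃ c γ, y = c :: γ ∧ xor c (p.pad γ) = true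

/-- the oracle, one step -/
noncomputable def stepA (Mach : ℕ → OProc) (p : Par) (A R : Str → Bool) (q : Str) : Bool :=
  @decide ((∃ x w, q = bQ x w ∧ w = p.base x) ∨
    (∃ j T, q = hashQ j T ∧ (pairStr (nm p R T, [])).getD j false = true) ∨
    (∃ y w, q = wQ y w ∧ yesN p y ∧ w = p.om y) ∨
    (∃ r w, q = kQ r w ∧ yesK Mach A r w)) (Classical.propDecidable _)

/-- the complete language, one step -/
noncomputable def stepR (Mach : ℕ → OProc) (p : Par) (A : Str → Bool) (x : Str) : Bool :=
  @decide ((∃ y, x = true :: y ∧ yesN p y) ∨
    (∃ r w, x = false :: r ∧ w.length ≤ r.length ∧ yesK Mach A r w)) (Classical.propDecidable _)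

/-- the oracle (`(false, q)`) and the complete language (`(true, x)`) -/
noncomputable def Zf (Mach : ℕ → OProc) (p : Par) (z : Bool × Str) : Bool :=
  bif z.1 then
    stepR Mach p (fun q => if _h : q.length < z.2.length then Zf Mach p (false, q) else false) z.2
  else
    stepA Mach p (fun q => if _h : q.length < z.2.length then Zf Mach p (false, q) else false)
      (fun x => if _h : x.length < z.2.length then Zf Mach p (true, x) else false) z.2
termination_by z.2.length

/-- the oracle of the parameters `p` -/
noncomputable def orc (Mach : ℕ → OProc) (p : Par) (q : Str) : Bool := Zf Mach p (false, q)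

/-- the complete language of the parameters `p` -/
noncomputable def lang (Mach : ℕ → OProc) (p : Par) (x : Str) : Bool := Zf Mach p (true, x)

/-- the parameters agree below `n` -/
structure Agr (p p' : Par) (n : ℕ) : Prop where
  base : ∀ x : Str, x.length < n → p.base x = p'.base x
  g : ∀ T : List Str, maxlen T < n → p.g T = p'.g T
  pad : ∀ γ : Str, γ.length < n → p.pad γ = p'.pad γ
  om : ∀ y : Str, y.length < n → p.om y = p'.om y

theorem Agr.refl (p : Par) (n : ℕ) : Agr p p n :=
  ⟨fun _ _ => rfl, fun _ _ => rfl, fun _ _ => rfl, fun _ _ => rfl⟩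

theorem Agr.mono {p p' : Par} {m n : ℕ} (h : Agr p p' n) (hmn : m ≤ n) : Agr p p' m :=
  ⟨fun x hx => h.base x (by omega), fun T hT => h.g T (by omega),
    fun γ hγ => h.pad γ (by omega), fun y hy => h.om y (by omega)⟩

theorem Agr.trans {p p' p'' : Par} {n : ℕ} (h : Agr p p' n) (h' : Agr p' p'' n) : Agr p p'' n :=
  ⟨fun x hx => (h.base x hx).trans (h'.base x hx), fun T hT => (h.g T hT).trans (h'.g T hT),
    fun γ hγ => (h.pad γ hγ).trans (h'.pad γ hγ), fun y hy => (h.om y hy).trans (h'.om y hy)⟩

theorem Agr.symm {p p' : Par} {n : ℕ} (h : Agr p p' n) : Agr p' p n :=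
  ⟨fun x hx => (h.base x hx).symm, fun T hT => (h.g T hT).symm,
    fun γ hγ => (h.pad γ hγ).symm, fun y hy => (h.om y hy).symm⟩

end OEth
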