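import Pool.Agent.Work.MP_609cce_lc_eth.EGameDefs

/-!
# The guessing game: the bound
-/

namespace OEth

open Orc Finset
open Classical

set_option linter.unusedSectionVars false

variable {X Y T P Q : Type} [Fintype X] [Fintype Y] [Fintype T] [Fintype P]

/-- the normalised number of worlds -/
noncomputable def mass (E : Co X Y T → Finset (List Bool)) (S : Finset T) : ℝ :=
  (∏ c, ((E c).card : ℝ)) / 2 ^ S.card

/-- the gain -/
noncomputable def pot (E : Co X Y T → Finset (List Bool)) (xs : List X) : ℝ :=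
  (xs.map fun x => ((E (cb x)).card : ℝ)⁻¹).prod

theorem mass_nonneg (E : Co X Y T → Finset (List Bool)) (S : Finset T) : 0 ≤ mass E S := by
  unfold mass
  positivity

theorem pot_nonneg (E : Co X Y T → Finset (List Bool)) (xs : List X) : 0 ≤ pot E xs := by
  unfold pot
  refine List.prod_nonneg fun a ha => ?_
  obtain ⟨x, _, rfl⟩ := List.mem_map.1 ha
  positivity

theorem mass_update (E : Co X Y T → Finset (List Bool)) (S : Finset T) (c0 : Co X Y T)
    (s : Finset (List Bool)) :
    mass (Function.update E c0 s) S * (E c0).card = mass E S * s.card := by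
  unfold mass
  have h1 := Finset.mul_prod_erase univ (fun c => ((E c).card : ℝ)) (mem_univ c0)
  have h2 := Finset.mul_prod_erase univ
    (fun c => ((Function.update E c0 s c).card : ℝ)) (mem_univ c0)
  have h3 : ∏ c ∈ univ.erase c0, ((Function.update E c0 s c).card : ℝ) =
      ∏ c ∈ univ.erase c0, ((E c).card : ℝ) := by
    refine Finset.prod_congr rfl fun c hc => ?_
    rw [Function.update_of_ne (Finset.ne_of_mem_erase hc)]
  rw [h3] at h2
  simp only [Function.update_self] at h2
  rw [← h1, ← h2]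
  ring

theorem pot_update (E : Co X Y T → Finset (List Bool)) (c0 : Co X Y T)
    (s : Finset (List Bool)) (xs : List X) (h : ∀ x ∈ xs, cb x ≠ c0) :
    pot (Function.update E c0 s) xs = pot E xs := by
  unfold pot
  congr 1
  refine List.map_congr_left fun x hx => ?_
  rw [Function.update_of_ne (h x hx)]

theorem pot_update_cb (E : Co X Y T → Finset (List Bool)) (x0 : X) (b : Bool)
    (hE : ∀ x, 1 ≤ (E (cb x)).card) :
    ∀ xs : List X, xs.Nodup →
      pot (Function.update E (cb x0) {[b]}) xs ≤ pot E xs * (E (cb x0)).card := by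
  intro xs
  induction xs with
  | nil =>
    intro _
    simp only [pot, List.map_nil, List.prod_nil, one_mul]
    exact_mod_cast hE x0
  | cons x xs ih =>
    intro hnd
    rw [List.nodup_cons] at hnd
    by_cases hx : x = x0
    · subst hx
      have h1 := pot_update E (cb x) {[b]} xs (fun x' hx' h => hnd.1 (by
        have : x' = x := by simpa using h
        rw [← this]; exact hx'))
      unfold pot at h1 ⊢
      simp only [List.map_cons, List.prod_cons, Function.update_self, card_singleton]
      rw [h1]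
      have h2 : ((E (cb x)).card : ℝ) ≠ 0 := by
        have := hE x
        positivity
      rw [show (((E (cb x)).card : ℝ)⁻¹ * (List.map (fun x => ((E (cb x)).card : ℝ)⁻¹) xs).prod *
        ((E (cb x)).card : ℝ)) = (List.map (fun x => ((E (cb x)).card : ℝ)⁻¹) xs).prod by
          field_simp]
      simp
    · have h1 := ih hnd.2
      unfold pot at h1 ⊢
      simp only [List.map_cons, List.prod_cons]
      rw [Function.update_of_ne (by simpa using hx), mul_assoc]
      exact mul_le_mul_of_nonneg_left h1 (by positivity)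

/-- the worlds of a state -/
noncomputable def worlds (G : Game X Y T P Q) (E : Co X Y T → Finset (List Bool)) (S : Finset T)
    (v : T → Bool) (κ : Q → Option Bool) : Finset ((Co X Y T → List Bool) × (P → Bool)) :=
  ((Fintype.piFinset E) ×ˢ (univ : Finset (P → Bool))).filter fun θ =>
    (∀ t ∈ S, G.vis θ.1 θ.2 t = v t) ∧ ∀ q a, κ q = some a → G.B θ.1 θ.2 q = a

theorem mem_worlds {G : Game X Y T P Q} {E : Co X Y T → Finset (List Bool)} {S : Finset T}
    {v : T → Bool} {κ : Q → Option Bool} {θ : (Co X Y T → List Bool) × (P → Bool)} :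
    θ ∈ worlds G E S v κ ↔ (∀ c, θ.1 c ∈ E c) ∧ (∀ t ∈ S, G.vis θ.1 θ.2 t = v t) ∧
      ∀ q a, κ q = some a → G.B θ.1 θ.2 q = a := by
  simp only [worlds, mem_filter, mem_product, Fintype.mem_piFinset, mem_univ, and_true]

/-- the states which occur after at most `k` queries -/
structure St (G : Game X Y T P Q) (E0 : Co X Y T → Finset (List Bool)) (H k : ℕ)
    (E : Co X Y T → Finset (List Bool)) (S : Finset T) (κ : Q → Option Bool) : Prop where
  sub : ∀ c, E c ⊆ E0 c
  sc : S.card ≤ k
  hb : ∀ x, E (cb x) = {[false], [true]} ∨ ∃ b, E (cb x) = {[b]}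
  hu : ∀ x, H ≤ (E (cu x)).card + k ∨ ∃ u b, E (cu x) = {u} ∧ E (cb x) = {[b]}
  ho : ∀ y, H ≤ (E (co y)).card + k ∨
    ∃ w, E (co y) = {w} ∧ ∀ q w', G.cls q = .wit y w' → w' = w → κ q ≠ none
  hg : ∀ t, (H ≤ (E (cg t)).card ∧ t ∉ S) ∨
    ∃ γ, E (cg t) = {γ} ∧ (t ∈ S ∨ ∀ q f, G.cls q = .hash t f → κ q ≠ none)
  inj : ∀ t ∈ S, ∀ t' ∈ S, E (cg t) = E (cg t') → t = t'

theorem St.cb_card {G : Game X Y T P Q} {E0 : Co X Y T → Finset (List Bool)} {H k : ℕ}
    {E : Co X Y T → Finset (List Bool)} {S : Finset T} {κ : Q → Option Bool}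
    (h : St G E0 H k E S κ) (x : X) : 1 ≤ (E (cb x)).card := by
  rcases h.hb x with h1 | ⟨b, h1⟩ <;> rw [h1] <;> simp

/-- the final states -/
theorem worlds_card {G : Game X Y T P Q} {E0 : Co X Y T → Finset (List Bool)} {H k : ℕ}
    (hG : G.OK E0 H) {E : Co X Y T → Finset (List Bool)} {S : Finset T} {v : T → Bool}
    {κ : Q → Option Bool} (h : St G E0 H k E S κ) :
    ((worlds G E S v κ).card : ℝ) ≤ mass E S * 2 ^ Fintype.card P := by
  have h1 : (worlds G E S v κ).card ≤ ∑ η ∈ Fintype.piFinset E,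
      (univ.filter fun π : P → Bool => ∀ t ∈ S, G.vis η π t = v t).card := by
    have h2 : worlds G E S v κ ⊆ (Fintype.piFinset E).biUnion fun η =>
        (univ.filter fun π : P → Bool => ∀ t ∈ S, G.vis η π t = v t).image fun π => (η, π) := by
      intro θ hθ
      obtain ⟨h3, h4, _⟩ := mem_worlds.1 hθ
      rw [mem_biUnion]
      refine ⟨θ.1, Fintype.mem_piFinset.2 h3, mem_image.2 ⟨θ.2, ?_, rfl⟩⟩
      rw [mem_filter]
      exact ⟨mem_univ _, h4⟩
    refine (card_le_card h2).trans (card_biUnion_le.trans (sum_le_sum fun η _ => ?_))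
    exact card_image_le
  have h2 : ∀ η ∈ Fintype.piFinset E,
      (univ.filter fun π : P → Bool => ∀ t ∈ S, G.vis η π t = v t).card * 2 ^ S.card ≤
        2 ^ Fintype.card P := by
    intro η hη
    rw [Fintype.mem_piFinset] at hη
    have hc := hG.count η (fun c => h.sub c (hη c)) S (fun t ht t' ht' he => h.inj t ht t' ht' ?_) v
    · convert hc
    obtain ⟨γ, h3, _⟩ : ∃ γ, E (cg t) = {γ} ∧ (t ∈ S ∨ ∀ q f, G.cls q = .hash t f → κ q ≠ none) := by
      rcases h.hg t with h4 | h4
      · exact absurd ht h4.2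
      · exact h4
    obtain ⟨γ', h3', _⟩ : ∃ γ, E (cg t') = {γ} ∧
        (t' ∈ S ∨ ∀ q f, G.cls q = .hash t' f → κ q ≠ none) := by
      rcases h.hg t' with h4 | h4
      · exact absurd ht' h4.2
      · exact h4
    have h5 := hη (cg t)
    have h6 := hη (cg t')
    rw [h3, mem_singleton] at h5
    rw [h3', mem_singleton] at h6
    rw [h3, h3', ← h5, ← h6, he]
  have h3 : (worlds G E S v κ).card * 2 ^ S.card ≤ (∏ c, (E c).card) * 2 ^ Fintype.card P := by
    calc (worlds G E S v κ).card * 2 ^ S.card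
        ≤ (∑ η ∈ Fintype.piFinset E,
          (univ.filter fun π : P → Bool => ∀ t ∈ S, G.vis η π t = v t).card) * 2 ^ S.card :=
          Nat.mul_le_mul_right _ h1
      _ = ∑ η ∈ Fintype.piFinset E, (univ.filter fun π : P → Bool =>
          ∀ t ∈ S, G.vis η π t = v t).card * 2 ^ S.card := by rw [sum_mul]
      _ ≤ ∑ η ∈ Fintype.piFinset E, 2 ^ Fintype.card P := sum_le_sum h2
      _ = _ := by rw [sum_const, smul_eq_mul, Fintype.card_piFinset]
  unfold mass
  rw [div_mul_eq_mul_div, le_div_iff₀ (by positivity)]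
  exact_mod_cast h3

end OEth
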