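import Pool.Agent.Work.MP_609cce_lc.OrcTree

/-!
# The guessing game: definitions

Hidden coordinates: `cb x` (a bit, as the string of length 1), `cu x`, `co y` (strings which have
to be hit exactly), `cg t` (the random part of the name of `t`). A world is a pair `(η, π)`,
`η` the values of the coordinates and `π` the pads. `vis η π t` is the visible bit of the
name of `t`.
-/

namespace OEth

open Orc

/-- the hidden coordinates -/
abbrev Co (X Y T : Type) := (X ⊕ X) ⊕ (Y ⊕ T)

/-- the bit of `x` -/
abbrev cb {X Y T : Type} (x : X) : Co X Y T := Sum.inl (Sum.inl x)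
/-- the string of `x` -/
abbrev cu {X Y T : Type} (x : X) : Co X Y T := Sum.inl (Sum.inr x)
/-- the witness of `y` -/
abbrev co {X Y T : Type} (y : Y) : Co X Y T := Sum.inr (Sum.inl y)
/-- the name of `t` -/
abbrev cg {X Y T : Type} (t : T) : Co X Y T := Sum.inr (Sum.inr t)

/-- the classes of queries -/
inductive Cls (X Y T : Type) where
  /-- the answer is the same in all worlds -/
  | fix
  /-- is the bit of `x` equal to `c` and the string of `x` equal to `u`? -/
  | plain (x : X) (c : Bool) (u : List Bool)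
  /-- can be answered by yes only if the witness of `y` is `w` -/
  | wit (y : Y) (w : List Bool)
  /-- a function of the name and the visible bit of `t` -/
  | hash (t : T) (f : List Bool → Bool → Bool)

/-- a game -/
structure Game (X Y T P Q : Type) where
  /-- the visible bits -/
  vis : (Co X Y T → List Bool) → (P → Bool) → T → Bool
  /-- the oracle -/
  B : (Co X Y T → List Bool) → (P → Bool) → Q → Bool
  /-- the class of a query -/
  cls : Q → Cls X Y T

open Classical in
/-- the properties of the game -/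
structure Game.OK {X Y T P Q : Type} [Fintype P] (G : Game X Y T P Q)
    (E0 : Co X Y T → Finset (List Bool)) (H : ℕ) : Prop where
  eb : ∀ x, E0 (cb x) = {[false], [true]}
  eu : ∀ x, H ≤ (E0 (cu x)).card
  eo : ∀ y, H ≤ (E0 (co y)).card
  eg : ∀ t, H ≤ (E0 (cg t)).card
  fix : ∀ q, G.cls q = .fix → ∃ a, ∀ η, (∀ c, η c ∈ E0 c) → ∀ π, G.B η π q = a
  plain : ∀ q x c u, G.cls q = .plain x c u → ∀ η, (∀ c, η c ∈ E0 c) → ∀ π,
    (G.B η π q = true ↔ η (cb x) = [c] ∧ η (cu x) = u)
  wit : ∀ q y w, G.cls q = .wit y w → ∀ η, (∀ c, η c ∈ E0 c) → ∀ π,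
    G.B η π q = true → η (co y) = w
  inj : ∀ q q' y w, G.cls q = .wit y w → G.cls q' = .wit y w → q = q'
  hash : ∀ q t f, G.cls q = .hash t f → ∀ η, (∀ c, η c ∈ E0 c) → ∀ π,
    G.B η π q = f (η (cg t)) (G.vis η π t)
  count : ∀ η, (∀ c, η c ∈ E0 c) → ∀ S : Finset T,
    (∀ t ∈ S, ∀ t' ∈ S, η (cg t) = η (cg t') → t = t') → ∀ v : T → Bool,
    (Finset.univ.filter fun π : P → Bool => ∀ t ∈ S, G.vis η π t = v t).card * 2 ^ S.card ≤
      2 ^ Fintype.card P

/-- the trees of the list `L` guess the bits of their inputs -/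
def Right {X Y T P Q : Type} (G : Game X Y T P Q) (L : List (X × QTree Q))
    (θ : (Co X Y T → List Bool) × (P → Bool)) : Prop :=
  ∀ p ∈ L, p.2.eval (G.B θ.1 θ.2) = (θ.1 (cb p.1)).headD false

/-- the sum of the depths -/
def dsum {X Q : Type} (L : List (X × QTree Q)) : ℕ := (L.map fun p => p.2.depth).sum

end OEth
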