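import Pool.Agent.Work.MP_609cce_lc_eth.ELoc
import Pool.Agent.Work.MP_609cce_lc_eth.EGameDefs

/-!
# The worlds of a stage
-/

namespace OEth

open ORDist Orc Finset
open Classical

/-- the strings of length `m` -/
noncomputable def sF (m : ℕ) : Finset Str := univ.image fun f : Fin m → Bool => List.ofFn f

theorem mem_sF {m : ℕ} {w : Str} : w ∈ sF m ↔ w.length = m := by
  unfold sF
  rw [mem_image]
  constructor
  · rintro ⟨f, _, rfl⟩
    exact List.length_ofFn
  · rintro rfl
    exact ⟨w.get, mem_univ _, List.ofFn_get w⟩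

theorem card_sF (m : ℕ) : (sF m).card = 2 ^ m := by
  unfold sF
  rw [card_image_of_injective _ List.ofFn_injective, card_univ, Fintype.card_fun,
    Fintype.card_bool, Fintype.card_fin]

theorem maxlen_lt_seqBits {T : List Str} (h : T ≠ []) : maxlen T < (seqBits T).length := by
  cases T with
  | nil => exact absurd rfl h
  | cons y T =>
    show max y.length (maxlen T) < (pairStr (y, seqBits T)).length
    rw [pairStr_length']
    have := maxlen_le_seqBits T
    omega

section

variable (n N : ℕ)

/-- the inputs of length `n` -/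
abbrev IX := {x : Str // x.length = n}
/-- the names with witnesses in the window -/
abbrev IY := {y : Str // n ≤ y.length ∧ y.length < N}
/-- the sequences in the window -/
abbrev IT := {T : List Str // n ≤ maxlen T ∧ (seqBits T).length < N}
/-- the pads in the window -/
abbrev IP := {γ : Str // n + 1 ≤ γ.length ∧ γ.length < N}

instance : Finite (IX n) := by
  refine Finite.of_injective (fun x : IX n => (⟨x.1, mem_sF.2 x.2⟩ : {w // w ∈ sF n})) ?_
  intro x y h
  simpa [Subtype.ext_iff] using h

theorem finite_lt : Finite {w : Str // w.length < N} := by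
  refine Finite.of_injective (fun x : {w : Str // w.length < N} =>
    (⟨x.1, mem_biUnion.2 ⟨x.1.length, mem_range.2 x.2, mem_sF.2 rfl⟩⟩ :
      {w // w ∈ (range N).biUnion sF})) ?_
  intro x y h
  simpa [Subtype.ext_iff] using h

instance : Finite (IY n N) := by
  have := finite_lt N
  refine Finite.of_injective (fun x : IY n N => (⟨x.1, x.2.2⟩ : {w : Str // w.length < N})) ?_
  intro x y h
  simpa [Subtype.ext_iff] using h

instance : Finite (IP n N) := by
  have := finite_lt N
  refine Finite.of_injective (fun x : IP n N => (⟨x.1, x.2.2⟩ : {w : Str // w.length < N})) ?_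
  intro x y h
  simpa [Subtype.ext_iff] using h

instance : Finite (IT n N) := by
  have := finite_lt N
  refine Finite.of_injective
    (fun x : IT n N => (⟨seqBits x.1, x.2.2⟩ : {w : Str // w.length < N})) ?_
  intro x y h
  exact Subtype.ext (seqBits_inj (congrArg Subtype.val h))

noncomputable instance : Fintype (IX n) := Fintype.ofFinite _
noncomputable instance : Fintype (IY n N) := Fintype.ofFinite _
noncomputable instance : Fintype (IT n N) := Fintype.ofFinite _
noncomputable instance : Fintype (IP n N) := Fintype.ofFinite _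

/-- the hidden coordinates of the window -/
abbrev WC := Co (IX n) (IY n N) (IT n N)

variable {n N}

/-- the possible values of the coordinates -/
noncomputable def E0 (c : WC n N) : Finset Str :=
  match c with
  | .inl (.inl _) => {[false], [true]}
  | .inl (.inr _) => sF n
  | .inr (.inl y) => sF y.1.length
  | .inr (.inr t) => sF (maxlen t.1 + 1)

/-- the parameters of a world -/
noncomputable def par (p : Par) (η : WC n N → Str) (π : IP n N → Bool) : Par where
  base := fun x => if h : x.length = n then η (cb ⟨x, h⟩) ++ η (cu ⟨x, h⟩) else p.base x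
  g := fun T => if h : n ≤ maxlen T ∧ (seqBits T).length < N then η (cg ⟨T, h⟩) else p.g T
  pad := fun γ => if h : n + 1 ≤ γ.length ∧ γ.length < N then π ⟨γ, h⟩ else p.pad γ
  om := fun y => if h : n ≤ y.length ∧ y.length < N then η (co ⟨y, h⟩) else p.om y

variable {p : Par} {η : WC n N → Str} {π : IP n N → Bool}

theorem par_wf (hp : p.WF) (hη : ∀ c, η c ∈ E0 c) : (par p η π).WF := by
  refine ⟨fun x => ?_, fun T => ?_, fun y => ?_⟩
  · show (if h : x.length = n then η (cb ⟨x, h⟩) ++ η (cu ⟨x, h⟩) else p.base x).length = _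
    split_ifs with h
    · have h1 : η (cb ⟨x, h⟩) ∈ ({[false], [true]} : Finset Str) := hη (cb ⟨x, h⟩)
      have h2 : η (cu ⟨x, h⟩) ∈ sF n := hη (cu ⟨x, h⟩)
      rw [mem_sF] at h2
      rw [mem_insert, mem_singleton] at h1
      rw [List.length_append, h2]
      rcases h1 with h1 | h1 <;> rw [h1] <;> simp <;> omega
    · exact hp.base_len x
  · show (if h : n ≤ maxlen T ∧ (seqBits T).length < N then η (cg ⟨T, h⟩) else p.g T).length = _
    split_ifs with h
    · exact mem_sF.1 (hη (cg ⟨T, h⟩))
    · exact hp.g_len T
  · show (if h : n ≤ y.length ∧ y.length < N then η (co ⟨y, h⟩) else p.om y).length = _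
    split_ifs with h
    · exact mem_sF.1 (hη (co ⟨y, h⟩))
    · exact hp.om_len y

theorem par_agr : Agr p (par p η π) n := by
  refine ⟨fun x hx => ?_, fun T hT => ?_, fun γ hγ => ?_, fun y hy => ?_⟩
  · show _ = if h : x.length = n then _ else _
    rw [dif_neg (by omega)]
  · show _ = if h : n ≤ maxlen T ∧ (seqBits T).length < N then _ else _
    rw [dif_neg (by omega)]
  · show _ = if h : n + 1 ≤ γ.length ∧ γ.length < N then _ else _
    rw [dif_neg (by omega)]
  · show _ = if h : n ≤ y.length ∧ y.length < N then _ else _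
    rw [dif_neg (by omega)]

theorem par_base (x : IX n) : (par p η π).base x.1 = η (cb x) ++ η (cu x) := by
  show (if h : x.1.length = n then η (cb ⟨x.1, h⟩) ++ η (cu ⟨x.1, h⟩) else p.base x.1) = _
  rw [dif_pos x.2]

theorem par_g (t : IT n N) : (par p η π).g t.1 = η (cg t) := by
  show (if h : n ≤ maxlen t.1 ∧ (seqBits t.1).length < N then η (cg ⟨t.1, h⟩) else p.g t.1) = _
  rw [dif_pos t.2]

theorem par_pad (γ : IP n N) : (par p η π).pad γ.1 = π γ := by
  show (if h : n + 1 ≤ γ.1.length ∧ γ.1.length < N then π ⟨γ.1, h⟩ else p.pad γ.1) = _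
  rw [dif_pos γ.2]

theorem par_om (y : IY n N) : (par p η π).om y.1 = η (co y) := by
  show (if h : n ≤ y.1.length ∧ y.1.length < N then η (co ⟨y.1, h⟩) else p.om y.1) = _
  rw [dif_pos y.2]

/-- the visible bits -/
noncomputable def visW (Mach : ℕ → OProc) (p : Par) (η : WC n N → Str) (π : IP n N → Bool)
    (t : IT n N) : Bool :=
  xor (st (lang Mach (par p η π)) t.1) ((par p η π).pad (η (cg t)))

/-- the name of `t` as an index of a pad -/
theorem name_mem (hn : 1 ≤ n) (hη : ∀ c, η c ∈ E0 c) (t : IT n N) :
    n + 1 ≤ (η (cg t)).length ∧ (η (cg t)).length < N := by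
  have h1 : (η (cg t)).length = maxlen t.1 + 1 := mem_sF.1 (hη (cg t))
  have h2 := t.2
  have h3 : t.1 ≠ [] := by
    intro h
    rw [h] at h2
    have : maxlen ([] : List Str) = 0 := rfl
    omega
  have h4 := maxlen_lt_seqBits h3
  omega

/-- **The pad lemma.** -/
theorem pad_count (Mach : ℕ → OProc) (hp : p.WF) (hn : 1 ≤ n) (hη : ∀ c, η c ∈ E0 c)
    (S : Finset (IT n N)) (hS : ∀ t ∈ S, ∀ t' ∈ S, η (cg t) = η (cg t') → t = t')
    (v : IT n N → Bool) :
    (univ.filter fun π : IP n N → Bool => ∀ t ∈ S, visW Mach p η π t = v t).card *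
      2 ^ S.card ≤ 2 ^ Fintype.card (IP n N) := by
  let ν : IT n N → IP n N := fun t => ⟨η (cg t), name_mem hn hη t⟩
  have hν : ∀ t ∈ S, ∀ t' ∈ S, ν t = ν t' → t = t' := fun t ht t' ht' h =>
    hS t ht t' ht' (congrArg Subtype.val h)
  -- the triangular map
  let Ψ : (IP n N → Bool) → (IP n N → Bool) := fun π γ =>
    if h : ∃ t ∈ S, ν t = γ then visW Mach p η π h.choose else π γ
  have hΨ1 : ∀ π, ∀ t ∈ S, Ψ π (ν t) = visW Mach p η π t := by
    intro π t ht
    have h : ∃ t' ∈ S, ν t' = ν t := ⟨t, ht, rfl⟩
    have h1 : h.choose = t := hν _ h.choose_spec.1 t ht h.choose_spec.2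
    simp only [Ψ, dif_pos h]
    rw [h1]
  have hinj : Function.Injective Ψ := by
    intro π π' h
    have key : ∀ m, ∀ γ : IP n N, γ.1.length = m → π γ = π' γ := by
      intro m
      induction m using Nat.strong_induction_on with
      | _ m ih =>
        intro γ hγ
        by_cases hex : ∃ t ∈ S, ν t = γ
        · obtain ⟨t, ht, rfl⟩ := hex
          have h1 := congrFun h (ν t)
          rw [hΨ1 π t ht, hΨ1 π' t ht] at h1
          have hlen : (η (cg t)).length = maxlen t.1 + 1 := mem_sF.1 (hη (cg t))
          have hag : Agr (par p η π) (par p η π') (maxlen t.1) := by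
            refine ⟨fun x _ => rfl, fun T _ => rfl, fun γ' hγ' => ?_, fun y _ => rfl⟩
            show (if h : n + 1 ≤ γ'.length ∧ γ'.length < N then π ⟨γ', h⟩ else p.pad γ') =
              if h : n + 1 ≤ γ'.length ∧ γ'.length < N then π' ⟨γ', h⟩ else p.pad γ'
            split_ifs with h2
            · refine ih γ'.length ?_ ⟨γ', h2⟩ rfl
              rw [← hγ]
              show γ'.length < (η (cg t)).length
              omega
            · rfl
          have hst : st (lang Mach (par p η π)) t.1 = st (lang Mach (par p η π')) t.1 :=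
            st_congr fun x hx => lang_local (par_wf hp hη) (par_wf hp hη) hag (le_maxlen hx)
          have h3 : (par p η π).pad (η (cg t)) = π (ν t) := par_pad (ν t)
          have h4 : (par p η π').pad (η (cg t)) = π' (ν t) := par_pad (ν t)
          unfold visW at h1
          rw [hst, h3, h4] at h1
          cases hs : st (lang Mach (par p η π')) t.1 <;> rw [hs] at h1 <;> simpa using h1
        · have h1 := congrFun h γ
          simp only [Ψ, dif_neg hex] at h1
          exact h1
    funext γ
    exact key _ γ rfl
  -- counting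
  let V : Finset (IP n N) := S.image ν
  have hV : V.card = S.card := card_image_of_injOn fun t ht t' ht' h => hν t ht t' ht' h
  let val : IP n N → Bool := fun γ => if h : ∃ t ∈ S, ν t = γ then v h.choose else false
  have h1 : (univ.filter fun π : IP n N → Bool => ∀ t ∈ S, visW Mach p η π t = v t).card ≤
      (Fintype.piFinset fun γ : IP n N => if γ ∈ V then {val γ} else (univ : Finset Bool)).card := by
    refine card_le_card_of_injOn Ψ (fun π hπ => ?_) fun π _ π' _ h => hinj h
    rw [mem_coe, mem_filter] at hπ
    rw [mem_coe, Fintype.mem_piFinset]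
    intro γ
    by_cases hγ : γ ∈ V
    · rw [if_pos hγ, mem_singleton]
      obtain ⟨t, ht, rfl⟩ := mem_image.1 hγ
      rw [hΨ1 π t ht, hπ.2 t ht]
      have h : ∃ t' ∈ S, ν t' = ν t := ⟨t, ht, rfl⟩
      have h1 : h.choose = t := hν _ h.choose_spec.1 t ht h.choose_spec.2
      simp only [val, dif_pos h]
      rw [h1]
    · rw [if_neg hγ]
      exact mem_univ _
  have h2 : (Fintype.piFinset fun γ : IP n N =>
      if γ ∈ V then {val γ} else (univ : Finset Bool)).card * 2 ^ V.card =
        2 ^ Fintype.card (IP n N) := by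
    rw [Fintype.card_piFinset]
    have h3 : ∀ γ : IP n N, (if γ ∈ V then {val γ} else (univ : Finset Bool)).card =
        if γ ∈ V then 1 else 2 := by
      intro γ
      split_ifs <;> simp
    simp only [h3]
    rw [prod_ite, prod_const_one, one_mul, prod_const, ← pow_add]
    congr 1
    have h5 : (univ.filter fun γ : IP n N => ¬ γ ∈ V) = Vᶜ := by
      ext γ
      simp
    rw [h5, card_compl]
    have h6 := card_le_univ V
    omega
  rw [← hV, ← h2]
  exact Nat.mul_le_mul_right _ h1

end

end OEth
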